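import Pool.Agent.W5h29.LA.Dom
set_option autoImplicit false

/-!
The dimension of the space of the circulations.
-/

namespace Pool.Agent.W5h29.LA

namespace Dat

variable {K : Type*} [Field K] {N : ℕ} {D : Dat K N}

/-- the pairs `p < q` of lines which are not parallel -/
abbrev Ed (D : Dat K N) : Type := {e : Fin N × Fin N // e.1 < e.2 ∧ D.det2 e.1 e.2 ≠ 0}

open Classical in
/-- the antisymmetric matrix with given entries at the pairs `p < q` -/
noncomputable def ext (D : Dat K N) : (Ed D → ℚ) →ₗ[ℚ] (Fin N → Fin N → ℚ) where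
  toFun x := fun p q =>
    (if h : p < q ∧ D.det2 p q ≠ 0 then x ⟨(p, q), h⟩ else 0) -
      (if h : q < p ∧ D.det2 q p ≠ 0 then x ⟨(q, p), h⟩ else 0)
  map_add' x y := by
    funext p q
    simp only [Pi.add_apply]
    split_ifs <;> ring
  map_smul' a x := by
    funext p q
    simp only [Pi.smul_apply, smul_eq_mul, RingHom.id_apply]
    split_ifs <;> ring

open Classical in
theorem ext_apply (x : Ed D → ℚ) (e : Ed D) : D.ext x e.1.1 e.1.2 = x e := by
  obtain ⟨⟨p, q⟩, h⟩ := e
  have h' : ¬ (q < p ∧ D.det2 q p ≠ 0) := fun h1 => absurd h.1 (not_lt.2 h1.1.le)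
  show (if h : p < q ∧ D.det2 p q ≠ 0 then x ⟨(p, q), h⟩ else 0) -
      (if h : q < p ∧ D.det2 q p ≠ 0 then x ⟨(q, p), h⟩ else 0) = _
  rw [dif_pos h, dif_neg h', sub_zero]

theorem ext_injective : Function.Injective D.ext := by
  intro x y h
  funext e
  rw [← ext_apply x e, h, ext_apply]

open Classical in
theorem ext_anti (x : Ed D → ℚ) (p q : Fin N) : D.ext x q p = -D.ext x p q := by
  show (if h : q < p ∧ D.det2 q p ≠ 0 then x ⟨(q, p), h⟩ else 0) -
      (if h : p < q ∧ D.det2 p q ≠ 0 then x ⟨(p, q), h⟩ else 0) =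
    -((if h : p < q ∧ D.det2 p q ≠ 0 then x ⟨(p, q), h⟩ else 0) -
      (if h : q < p ∧ D.det2 q p ≠ 0 then x ⟨(q, p), h⟩ else 0))
  ring

open Classical in
theorem ext_par (x : Ed D → ℚ) {p q : Fin N} (h : D.det2 p q = 0) : D.ext x p q = 0 := by
  show (if h : p < q ∧ D.det2 p q ≠ 0 then x ⟨(p, q), h⟩ else 0) -
      (if h : q < p ∧ D.det2 q p ≠ 0 then x ⟨(q, p), h⟩ else 0) = 0
  have h' : D.det2 q p = 0 := by
    rw [D.det2_symm, h, neg_zero]
  rw [dif_neg fun h1 => h1.2 h, dif_neg fun h1 => h1.2 h', sub_zero]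

theorem ext_restr (c : Fin N → Fin N → ℚ) (h1 : ∀ p q, c q p = -c p q)
    (h2 : ∀ p q, D.det2 p q = 0 → c p q = 0) : D.ext (fun e => c e.1.1 e.1.2) = c := by
  funext p q
  by_cases h : D.det2 p q = 0
  · rw [ext_par _ h, h2 p q h]
  · rcases lt_trichotomy p q with h3 | h3 | h3
    · exact ext_apply (D := D) (fun e => c e.1.1 e.1.2) ⟨(p, q), h3, h⟩
    · exfalso
      rw [h3] at h
      exact h (det2_self q)
    · rw [ext_anti, h1 q p, neg_inj]
      exact ext_apply (D := D) (fun e => c e.1.1 e.1.2) ⟨(q, p), h3, det2_ne_symm h⟩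

/-- the column sums -/
noncomputable def bd (N : ℕ) : (Fin N → Fin N → ℚ) →ₗ[ℚ] (Fin N → ℚ) where
  toFun c := fun q => ∑ p, c p q
  map_add' c c' := by
    funext q
    simp only [Pi.add_apply, Finset.sum_add_distrib]
  map_smul' a c := by
    funext q
    simp only [Pi.smul_apply, smul_eq_mul, RingHom.id_apply, Finset.mul_sum]

theorem bd_apply (c : Fin N → Fin N → ℚ) (q : Fin N) : bd N c q = ∑ p, c p q := rfl

theorem circ_eq : D.circ ℚ = (LinearMap.ker ((bd N).comp D.ext)).map D.ext := by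
  ext c
  rw [Submodule.mem_map]
  constructor
  · rintro ⟨h1, h2, h3⟩
    refine ⟨fun e => c e.1.1 e.1.2, ?_, ext_restr c h1 h2⟩
    rw [LinearMap.mem_ker, LinearMap.comp_apply, ext_restr c h1 h2]
    funext q
    exact h3 q
  · rintro ⟨x, hx, rfl⟩
    rw [LinearMap.mem_ker, LinearMap.comp_apply] at hx
    exact ⟨fun p q => ext_anti x p q, fun p q h => ext_par x h, fun q => congrFun hx q⟩

/-- the sum -/
noncomputable def sm (N : ℕ) : (Fin N → ℚ) →ₗ[ℚ] ℚ where
  toFun f := ∑ p, f p
  map_add' f g := by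
    simp only [Pi.add_apply, Finset.sum_add_distrib]
  map_smul' a f := by
    simp only [Pi.smul_apply, smul_eq_mul, RingHom.id_apply, Finset.mul_sum]

theorem single_mem_of_ne {p q : Fin N} (h : D.det2 p q ≠ 0) :
    (Pi.single q 1 - Pi.single p 1 : Fin N → ℚ) ∈ LinearMap.range ((bd N).comp D.ext) := by
  classical
  have hpq : p ≠ q := by
    rintro rfl
    exact h (det2_self p)
  let c : Fin N → Fin N → ℚ := fun a b =>
    (if a = p ∧ b = q then 1 else 0) - (if a = q ∧ b = p then 1 else 0)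
  have h1 : ∀ a b, c b a = -c a b := by
    intro a b
    simp only [c]
    rw [neg_sub]
    congr 1
    · exact if_congr and_comm rfl rfl
    · exact if_congr and_comm rfl rfl
  have h2 : ∀ a b, D.det2 a b = 0 → c a b = 0 := by
    intro a b hab
    simp only [c]
    rw [if_neg, if_neg, sub_zero]
    · rintro ⟨rfl, rfl⟩
      exact det2_ne_symm h hab
    · rintro ⟨rfl, rfl⟩
      exact h hab
  refine ⟨fun e => c e.1.1 e.1.2, ?_⟩
  rw [LinearMap.comp_apply, ext_restr c h1 h2]
  funext b
  rw [bd_apply]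
  simp only [c, Finset.sum_sub_distrib, Pi.sub_apply, Pi.single_apply]
  congr 1
  · by_cases hb : b = q
    · simp [hb]
    · simp [hb]
  · by_cases hb : b = p
    · simp [hb]
    · simp [hb]

theorem single_mem (hdir : ∀ p, ∃ q, D.det2 p q ≠ 0) (p q : Fin N) :
    (Pi.single q 1 - Pi.single p 1 : Fin N → ℚ) ∈ LinearMap.range ((bd N).comp D.ext) := by
  by_cases hd : D.det2 p q = 0
  · obtain ⟨r, hr⟩ := hdir p
    have h1 := single_mem_of_ne hr
    have h2 := single_mem_of_ne (par_trans hdir hr hd)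
    have h3 := Submodule.sub_mem _ h1 h2
    have e : (Pi.single q 1 - Pi.single p 1 : Fin N → ℚ) =
        (Pi.single r 1 - Pi.single p 1) - (Pi.single r 1 - Pi.single q 1) := by
      abel
    rw [e]
    exact h3
  · exact single_mem_of_ne hd

theorem range_eq (hdir : ∀ p, ∃ q, D.det2 p q ≠ 0) (p₀ : Fin N) :
    LinearMap.range ((bd N).comp D.ext) = LinearMap.ker (sm N) := by
  apply le_antisymm
  · rintro _ ⟨x, rfl⟩
    rw [LinearMap.mem_ker, LinearMap.comp_apply]
    show ∑ q, ∑ p, D.ext x p q = 0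
    have h1 : ∑ q, ∑ p, D.ext x p q = -∑ q, ∑ p, D.ext x p q := by
      conv_lhs => rw [Finset.sum_comm]
      rw [← Finset.sum_neg_distrib]
      refine Finset.sum_congr rfl fun p _ => ?_
      rw [← Finset.sum_neg_distrib]
      refine Finset.sum_congr rfl fun q _ => ?_
      exact ext_anti x q p
    linarith
  · intro f hf
    have hf' : ∑ p, f p = 0 := hf
    have h1 : f = ∑ q, f q • (Pi.single q 1 - Pi.single p₀ 1 : Fin N → ℚ) := by
      simp only [smul_sub]
      rw [Finset.sum_sub_distrib, ← Finset.sum_smul, hf', zero_smul, sub_zero]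
      funext r
      simp [Finset.sum_apply, Pi.single_apply]
    rw [h1]
    exact Submodule.sum_mem _ fun q _ => Submodule.smul_mem _ _ (single_mem hdir p₀ q)

theorem finrank_ker_sm (p₀ : Fin N) : Module.finrank ℚ (LinearMap.ker (sm N)) + 1 = N := by
  classical
  have h1 := LinearMap.finrank_range_add_finrank_ker (sm N)
  have h2 : LinearMap.range (sm N) = ⊤ := by
    rw [LinearMap.range_eq_top]
    intro y
    refine ⟨Pi.single p₀ y, ?_⟩
    show ∑ p, (Pi.single p₀ y : Fin N → ℚ) p = y
    simp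
  rw [h2, finrank_top, Module.finrank_self, Module.finrank_fintype_fun_eq_card, Fintype.card_fin] at h1
  omega

/-- the dimension of the space of the circulations -/
theorem finrank_circ (hdir : ∀ p, ∃ q, D.det2 p q ≠ 0) (p₀ : Fin N) :
    Module.finrank ℚ (D.circ ℚ) + N = D.edges + 1 := by
  classical
  have h1 := LinearMap.finrank_range_add_finrank_ker ((bd N).comp D.ext)
  have h2 : Module.finrank ℚ (D.circ ℚ) =
      Module.finrank ℚ (LinearMap.ker ((bd N).comp D.ext)) := by
    rw [circ_eq]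
    exact (Submodule.equivMapOfInjective D.ext ext_injective _).finrank_eq.symm
  have h3 : Fintype.card (Ed D) = D.edges := by
    unfold edges
    rw [← Nat.card_coe_set_eq, ← Nat.card_eq_fintype_card]
    rfl
  rw [Module.finrank_fintype_fun_eq_card, h3, range_eq hdir p₀] at h1
  have h4 := finrank_ker_sm p₀
  omega

end Dat

end Pool.Agent.W5h29.LA
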