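import Mathlib
set_option autoImplicit false

/-!
The linear algebra of the regulator matrix.
-/

namespace Pool.Agent.W5h29.LA.Alg

variable {N : ℕ}

theorem split_sum {p q : Fin N} (hpq : p ≠ q) (f : Fin N → ℝ) :
    ∑ a, f a = f p + (f q + ∑ a ∈ (Finset.univ.erase p).erase q, f a) := by
  rw [Finset.add_sum_erase _ _ (Finset.mem_erase.2 ⟨hpq.symm, Finset.mem_univ q⟩),
    Finset.add_sum_erase _ _ (Finset.mem_univ p)]

/-- the regulator in terms of the basic integrals -/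
theorem identity {p q : Fin N} (hpq : p ≠ q) (c E : Fin N → Fin N → ℝ)
    (hc : ∀ a b, c b a = -c a b) (hE : ∀ a b, E b a = -E a b) (κ : ℝ)
    (hp : ∑ b, E p b = κ) (hA : ∀ a, a ≠ p → a ≠ q → ∑ b, E a b = 0) :
    1 / 2 * ∑ a, ∑ b, c a b * E a b = κ * c p q -
      ∑ a ∈ (Finset.univ.erase p).erase q, E p a * (c p q + c q a + c a p) +
      ∑ a ∈ (Finset.univ.erase p).erase q, ∑ b ∈ (Finset.univ.erase p).erase q,
        (c q a + 1 / 2 * c a b) * E a b := by
  set A : Finset (Fin N) := (Finset.univ.erase p).erase q with hAdef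
  have hs : ∀ f : Fin N → ℝ, ∑ a, f a = f p + (f q + ∑ a ∈ A, f a) := split_sum hpq
  have hdiag : ∀ (F : Fin N → Fin N → ℝ), (∀ a b, F b a = -F a b) → ∀ a, F a a = 0 := by
    intro F hF a
    have := hF a a
    linarith
  have hmem : ∀ a ∈ A, a ≠ p ∧ a ≠ q := by
    intro a ha
    rw [hAdef, Finset.mem_erase, Finset.mem_erase] at ha
    exact ⟨ha.2.1, ha.1⟩
  -- the entries of the row q
  have hq : ∀ a ∈ A, E q a = -E p a + ∑ b ∈ A, E a b := by
    intro a ha
    have h1 := hA a (hmem a ha).1 (hmem a ha).2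
    rw [hs, hE p a, hE q a] at h1
    linarith
  have hpq' : E p q = κ - ∑ a ∈ A, E p a := by
    have h1 := hp
    rw [hs, hdiag E hE] at h1
    linarith
  rw [hs, hs, hs]
  have e1 : ∑ a ∈ A, ∑ b, c a b * E a b =
      ∑ a ∈ A, c p a * E p a + ∑ a ∈ A, c q a * E q a + ∑ a ∈ A, ∑ b ∈ A, c a b * E a b := by
    rw [← Finset.sum_add_distrib, ← Finset.sum_add_distrib]
    refine Finset.sum_congr rfl fun a _ => ?_
    rw [hs, hc p a, hc q a, hE p a, hE q a]
    ring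
  have e2 : ∑ a ∈ A, c q a * E q a = -∑ a ∈ A, c q a * E p a +
      ∑ a ∈ A, ∑ b ∈ A, c q a * E a b := by
    rw [← Finset.sum_neg_distrib, ← Finset.sum_add_distrib]
    refine Finset.sum_congr rfl fun a ha => ?_
    rw [hq a ha, ← Finset.mul_sum]
    ring
  have e3 : ∑ a ∈ A, E p a * (c p q + c q a + c a p) =
      c p q * ∑ a ∈ A, E p a + ∑ a ∈ A, c q a * E p a - ∑ a ∈ A, c p a * E p a := by
    rw [Finset.mul_sum, ← Finset.sum_add_distrib, ← Finset.sum_sub_distrib]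
    refine Finset.sum_congr rfl fun a _ => ?_
    rw [hc p a]
    ring
  have e4 : ∑ a ∈ A, ∑ b ∈ A, (c q a + 1 / 2 * c a b) * E a b =
      ∑ a ∈ A, ∑ b ∈ A, c q a * E a b + 1 / 2 * ∑ a ∈ A, ∑ b ∈ A, c a b * E a b := by
    rw [Finset.mul_sum, ← Finset.sum_add_distrib]
    refine Finset.sum_congr rfl fun a _ => ?_
    rw [Finset.mul_sum, ← Finset.sum_add_distrib]
    refine Finset.sum_congr rfl fun b _ => ?_
    ring
  rw [e1, e3, e4, hdiag c hc p, hdiag c hc q, hc p q, hE p q, e2, hpq']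
  ring

section cyc

variable (g : Fin N → Fin N → Fin N → ℝ)

theorem cyc : ∑ p, ∑ q, ∑ a, g p q a = ∑ p, ∑ q, ∑ a, g q a p := by
  conv_rhs => rw [Finset.sum_comm]
  refine Finset.sum_congr rfl fun q _ => ?_
  exact Finset.sum_comm

end cyc

theorem sum3_a (f : Fin N → Fin N → ℝ) :
    ∑ p : Fin N, ∑ q : Fin N, ∑ _a : Fin N, f p q = N * ∑ p, ∑ q, f p q := by
  simp only [Finset.sum_const, Finset.card_univ, Fintype.card_fin, nsmul_eq_mul, Finset.mul_sum]

theorem sum3_b (f : Fin N → Fin N → ℝ) :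
    ∑ _p : Fin N, ∑ q : Fin N, ∑ a : Fin N, f q a = N * ∑ p, ∑ q, f p q := by
  rw [Finset.sum_const, Finset.card_univ, Fintype.card_fin, nsmul_eq_mul]

theorem sum3_c (f : Fin N → Fin N → ℝ) :
    ∑ p : Fin N, ∑ _q : Fin N, ∑ a : Fin N, f a p = N * ∑ p, ∑ q, f p q := by
  rw [← sum3_b, cyc (fun _ q a => f q a)]

/-- the sum of the squares -/
noncomputable def n2 (c : Fin N → Fin N → ℝ) : ℝ := ∑ p, ∑ q, c p q ^ 2

theorem n2_nonneg (c : Fin N → Fin N → ℝ) : 0 ≤ n2 c :=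
  Finset.sum_nonneg fun _ _ => Finset.sum_nonneg fun _ _ => sq_nonneg _

/-- the coboundary -/
def dc (c : Fin N → Fin N → ℝ) (p q a : Fin N) : ℝ := c p q + c q a + c a p

/-- the sum of the squares of the coboundary -/
theorem sum_dc (c : Fin N → Fin N → ℝ) (h0 : ∀ q, ∑ p, c p q = 0) :
    ∑ p, ∑ q, ∑ a, dc c p q a ^ 2 = 3 * N * n2 c := by
  have h1 : ∑ p, ∑ q, ∑ a, c p q * c q a = 0 := by
    rw [Finset.sum_comm]
    refine Finset.sum_eq_zero fun q _ => ?_
    simp only [← Finset.mul_sum, ← Finset.sum_mul]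
    rw [h0 q, zero_mul]
  have h2 : ∑ p, ∑ q, ∑ a, c q a * c a p = 0 := by
    rw [← h1, cyc fun p q a => c p q * c q a]
  have h3 : ∑ p, ∑ q, ∑ a, c a p * c p q = 0 := by
    rw [← h2, cyc fun p q a => c q a * c a p]
  have e : ∑ p, ∑ q, ∑ a, dc c p q a ^ 2 =
      ∑ p, ∑ q, ∑ _a : Fin N, c p q ^ 2 + ∑ _p : Fin N, ∑ q, ∑ a, c q a ^ 2 +
        ∑ p, ∑ _q : Fin N, ∑ a, c a p ^ 2 + 2 * ∑ p, ∑ q, ∑ a, c p q * c q a +
        2 * ∑ p, ∑ q, ∑ a, c q a * c a p + 2 * ∑ p, ∑ q, ∑ a, c a p * c p q := by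
    simp only [Finset.mul_sum, ← Finset.sum_add_distrib]
    refine Finset.sum_congr rfl fun p _ => Finset.sum_congr rfl fun q _ =>
      Finset.sum_congr rfl fun a _ => ?_
    unfold dc
    ring
  rw [e, h1, h2, h3, sum3_a (fun p q => c p q ^ 2), sum3_b (fun p q => c p q ^ 2),
    sum3_c (fun p q => c p q ^ 2)]
  unfold n2
  ring

/-- the weighted sum of the squares of the coboundary -/
theorem sum_T (c : Fin N → Fin N → ℝ) (T : Fin N → Fin N → Fin N → ℝ)
    (hT : ∀ p q a, T q a p = T p q a) :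
    3 * ∑ p, ∑ q, ∑ a, T p q a * c p q * dc c p q a =
      ∑ p, ∑ q, ∑ a, T p q a * dc c p q a ^ 2 := by
  have hd : ∀ p q a, dc c q a p = dc c p q a := by
    intro p q a
    unfold dc
    ring
  have h1 : ∑ p, ∑ q, ∑ a, T p q a * c p q * dc c p q a =
      ∑ p, ∑ q, ∑ a, T p q a * c q a * dc c p q a := by
    rw [cyc fun p q a => T p q a * c p q * dc c p q a]
    refine Finset.sum_congr rfl fun p _ => Finset.sum_congr rfl fun q _ =>
      Finset.sum_congr rfl fun a _ => ?_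
    rw [hT, hd]
  have h2 : ∑ p, ∑ q, ∑ a, T p q a * c q a * dc c p q a =
      ∑ p, ∑ q, ∑ a, T p q a * c a p * dc c p q a := by
    rw [cyc fun p q a => T p q a * c q a * dc c p q a]
    refine Finset.sum_congr rfl fun p _ => Finset.sum_congr rfl fun q _ =>
      Finset.sum_congr rfl fun a _ => ?_
    rw [hT, hd]
  have e : ∑ p, ∑ q, ∑ a, T p q a * dc c p q a ^ 2 =
      ∑ p, ∑ q, ∑ a, T p q a * c p q * dc c p q a + ∑ p, ∑ q, ∑ a, T p q a * c q a * dc c p q a +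
        ∑ p, ∑ q, ∑ a, T p q a * c a p * dc c p q a := by
    simp only [← Finset.sum_add_distrib]
    refine Finset.sum_congr rfl fun p _ => Finset.sum_congr rfl fun q _ =>
      Finset.sum_congr rfl fun a _ => ?_
    unfold dc
    ring
  rw [e, ← h2, ← h1]
  ring

/-- the first error -/
theorem err1 (c : Fin N → Fin N → ℝ) :
    ∑ p, ∑ q, ∑ a, |c p q| * |dc c p q a| ≤ 3 * N * n2 c := by
  have e : 3 * N * n2 c = ∑ p, ∑ q, ∑ a, (2 * c p q ^ 2 + 1 / 2 * c q a ^ 2 + 1 / 2 * c a p ^ 2) := by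
    have e1 : ∑ p, ∑ q, ∑ a, (2 * c p q ^ 2 + 1 / 2 * c q a ^ 2 + 1 / 2 * c a p ^ 2) =
        2 * ∑ p, ∑ q, ∑ _a : Fin N, c p q ^ 2 + 1 / 2 * ∑ _p : Fin N, ∑ q, ∑ a, c q a ^ 2 +
        1 / 2 * ∑ p, ∑ _q : Fin N, ∑ a, c a p ^ 2 := by
      simp only [Finset.mul_sum, ← Finset.sum_add_distrib]
    rw [e1, sum3_a (fun p q => c p q ^ 2), sum3_b (fun p q => c p q ^ 2),
      sum3_c (fun p q => c p q ^ 2)]
    unfold n2
    ring
  rw [e]
  refine Finset.sum_le_sum fun p _ => Finset.sum_le_sum fun q _ => Finset.sum_le_sum fun a _ => ?_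
  have h1 : |dc c p q a| ≤ |c p q| + |c q a| + |c a p| := by
    unfold dc
    exact (abs_add_le _ _).trans (add_le_add_left (abs_add_le _ _) _)
  have h2 := mul_le_mul_of_nonneg_left h1 (abs_nonneg (c p q))
  have h3 := sq_abs (c p q)
  have h4 := sq_abs (c q a)
  have h5 := sq_abs (c a p)
  nlinarith [sq_nonneg (|c p q| - |c q a|), sq_nonneg (|c p q| - |c a p|)]

/-- the second error -/
theorem err2 (c : Fin N → Fin N → ℝ) :
    ∑ p, ∑ q, ∑ a, ∑ b, |c p q| * (|c q a| + 1 / 2 * |c a b|) ≤ 3 / 2 * N ^ 2 * n2 c := by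
  have e : 3 / 2 * N ^ 2 * n2 c =
      ∑ p, ∑ q, ∑ a, ∑ b, (3 / 4 * c p q ^ 2 + 1 / 2 * c q a ^ 2 + 1 / 4 * c a b ^ 2) := by
    have e1 : ∑ p, ∑ q, ∑ a, ∑ b, (3 / 4 * c p q ^ 2 + 1 / 2 * c q a ^ 2 + 1 / 4 * c a b ^ 2) =
        3 / 4 * ∑ p, ∑ q, ∑ _a : Fin N, ∑ _b : Fin N, c p q ^ 2 +
        1 / 2 * ∑ _p : Fin N, ∑ q, ∑ a, ∑ _b : Fin N, c q a ^ 2 +
        1 / 4 * ∑ _p : Fin N, ∑ _q : Fin N, ∑ a, ∑ b, c a b ^ 2 := by
      simp only [Finset.mul_sum, ← Finset.sum_add_distrib]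
    have e2 : ∑ p, ∑ q, ∑ _a : Fin N, ∑ _b : Fin N, c p q ^ 2 = N * (N * n2 c) := by
      unfold n2
      simp only [Finset.sum_const, Finset.card_univ, Fintype.card_fin, nsmul_eq_mul,
        Finset.mul_sum]
    have e3 : ∑ _p : Fin N, ∑ q, ∑ a, ∑ _b : Fin N, c q a ^ 2 = N * (N * n2 c) := by
      unfold n2
      simp only [Finset.sum_const, Finset.card_univ, Fintype.card_fin, nsmul_eq_mul,
        Finset.mul_sum]
    have e4 : ∑ _p : Fin N, ∑ _q : Fin N, ∑ a, ∑ b, c a b ^ 2 = N * (N * n2 c) := by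
      unfold n2
      rw [Finset.sum_const, Finset.sum_const, Finset.card_univ, Fintype.card_fin, nsmul_eq_mul,
        nsmul_eq_mul]
    rw [e1, e2, e3, e4]
    ring
  rw [e]
  refine Finset.sum_le_sum fun p _ => Finset.sum_le_sum fun q _ => Finset.sum_le_sum fun a _ =>
    Finset.sum_le_sum fun b _ => ?_
  have h3 := sq_abs (c p q)
  have h4 := sq_abs (c q a)
  have h5 := sq_abs (c a b)
  nlinarith [sq_nonneg (|c p q| - |c q a|), sq_nonneg (|c p q| - |c a b|)]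

/-- the main inequality -/
theorem main (c : Fin N → Fin N → ℝ) (hc : ∀ a b, c b a = -c a b) (h0 : ∀ q, ∑ p, c p q = 0)
    (T : Fin N → Fin N → Fin N → ℝ) (hT : ∀ p q a, T q a p = T p q a)
    (hT1 : ∀ p q a, dc c p q a ^ 2 ≤ T p q a * dc c p q a ^ 2) {ε₁ ε₂ : ℝ} (hε₁ : 0 ≤ ε₁)
    (hε₂ : 0 ≤ ε₂)
    (hloc : ∀ p q, c p q ≠ 0 → ∃ (κ : ℝ) (e : Fin N → ℝ) (F : Fin N → Fin N → ℝ), 0 ≤ κ ∧
      (∀ a, a ≠ p → a ≠ q → |e a + 2 * Real.pi * T p q a| ≤ ε₁) ∧
      (∀ a b, a ≠ p → a ≠ q → b ≠ p → b ≠ q → |F a b| ≤ ε₂) ∧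
      κ * c p q - ∑ a ∈ (Finset.univ.erase p).erase q, e a * dc c p q a +
      ∑ a ∈ (Finset.univ.erase p).erase q, ∑ b ∈ (Finset.univ.erase p).erase q,
        (c q a + 1 / 2 * c a b) * F a b = 0) :
    2 * Real.pi * N * n2 c ≤ ε₁ * (3 * N * n2 c) + ε₂ * (3 / 2 * N ^ 2 * n2 c) := by
  have hdiag : ∀ a, c a a = 0 := by
    intro a
    have := hc a a
    linarith
  have hdp : ∀ p q, dc c p q p = 0 := by
    intro p q
    unfold dc
    rw [hdiag, hc p q]
    ring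
  have hdq : ∀ p q, dc c p q q = 0 := by
    intro p q
    unfold dc
    rw [hdiag, hc p q]
    ring
  have key : ∀ p q, 2 * Real.pi * ∑ a, T p q a * c p q * dc c p q a ≤
      ε₁ * ∑ a, |c p q| * |dc c p q a| + ε₂ * ∑ a, ∑ b, |c p q| * (|c q a| + 1 / 2 * |c a b|) := by
    intro p q
    by_cases hcpq : c p q = 0
    · simp [hcpq]
    obtain ⟨κ, e, F, hκ, he, hF, heq⟩ := hloc p q hcpq
    have hpq : p ≠ q := by
      rintro rfl
      exact hcpq (hdiag p)
    set A : Finset (Fin N) := (Finset.univ.erase p).erase q with hAdef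
    have hmem : ∀ a ∈ A, a ≠ p ∧ a ≠ q := by
      intro a ha
      rw [hAdef, Finset.mem_erase, Finset.mem_erase] at ha
      exact ⟨ha.2.1, ha.1⟩
    have h1 : ∑ a, T p q a * c p q * dc c p q a = ∑ a ∈ A, T p q a * c p q * dc c p q a := by
      rw [split_sum hpq, hdp, hdq, mul_zero, mul_zero, zero_add, zero_add]
    have h2 := congrArg (fun x => c p q * x) heq
    simp only [mul_zero] at h2
    have h3 : 2 * Real.pi * ∑ a ∈ A, T p q a * c p q * dc c p q a =
        -(κ * c p q ^ 2) + ∑ a ∈ A, c p q * ((e a + 2 * Real.pi * T p q a) * dc c p q a) -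
          c p q * ∑ a ∈ A, ∑ b ∈ A, (c q a + 1 / 2 * c a b) * F a b := by
      have h4 : ∑ a ∈ A, c p q * ((e a + 2 * Real.pi * T p q a) * dc c p q a) =
          c p q * ∑ a ∈ A, e a * dc c p q a +
            2 * Real.pi * ∑ a ∈ A, T p q a * c p q * dc c p q a := by
        rw [Finset.mul_sum, Finset.mul_sum, ← Finset.sum_add_distrib]
        refine Finset.sum_congr rfl fun a _ => ?_
        ring
      rw [h4]
      linarith
    have h5 : ∑ a ∈ A, c p q * ((e a + 2 * Real.pi * T p q a) * dc c p q a) ≤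
        ε₁ * ∑ a, |c p q| * |dc c p q a| := by
      calc _ ≤ ∑ a ∈ A, ε₁ * (|c p q| * |dc c p q a|) := by
            refine Finset.sum_le_sum fun a ha => ?_
            refine (le_abs_self _).trans ?_
            rw [abs_mul, abs_mul]
            have h6 := he a (hmem a ha).1 (hmem a ha).2
            have h7 := mul_le_mul_of_nonneg_right h6
              (mul_nonneg (abs_nonneg (c p q)) (abs_nonneg (dc c p q a)))
            linarith
        _ ≤ ∑ a, ε₁ * (|c p q| * |dc c p q a|) :=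
            Finset.sum_le_sum_of_subset_of_nonneg (Finset.subset_univ _) fun a _ _ => by positivity
        _ = _ := by rw [Finset.mul_sum]
    have h6 : -(c p q * ∑ a ∈ A, ∑ b ∈ A, (c q a + 1 / 2 * c a b) * F a b) ≤
        ε₂ * ∑ a, ∑ b, |c p q| * (|c q a| + 1 / 2 * |c a b|) := by
      calc _ ≤ ∑ a ∈ A, ∑ b ∈ A, ε₂ * (|c p q| * (|c q a| + 1 / 2 * |c a b|)) := by
            rw [Finset.mul_sum, ← Finset.sum_neg_distrib]
            refine Finset.sum_le_sum fun a ha => ?_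
            rw [Finset.mul_sum, ← Finset.sum_neg_distrib]
            refine Finset.sum_le_sum fun b hb => ?_
            refine (neg_le_abs _).trans ?_
            rw [abs_mul, abs_mul]
            have h6 := hF a b (hmem a ha).1 (hmem a ha).2 (hmem b hb).1 (hmem b hb).2
            have h7 : |c q a + 1 / 2 * c a b| ≤ |c q a| + 1 / 2 * |c a b| := by
              refine (abs_add_le _ _).trans ?_
              rw [abs_mul, abs_of_pos (by norm_num : (0 : ℝ) < 1 / 2)]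
            have h8 : |c q a + 1 / 2 * c a b| * |F a b| ≤ (|c q a| + 1 / 2 * |c a b|) * ε₂ :=
              mul_le_mul h7 h6 (abs_nonneg _) (by positivity)
            have h9 := mul_le_mul_of_nonneg_left h8 (abs_nonneg (c p q))
            linarith
        _ ≤ ∑ a, ∑ b, ε₂ * (|c p q| * (|c q a| + 1 / 2 * |c a b|)) := by
            refine (Finset.sum_le_sum fun a _ =>
              Finset.sum_le_sum_of_subset_of_nonneg (Finset.subset_univ _) fun b _ _ => ?_).trans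
                (Finset.sum_le_sum_of_subset_of_nonneg (Finset.subset_univ _) fun a _ _ => ?_)
            · positivity
            · exact Finset.sum_nonneg fun b _ => by positivity
        _ = _ := by simp only [Finset.mul_sum]
    rw [h1, h3]
    have h7 : 0 ≤ κ * c p q ^ 2 := by positivity
    linarith
  have hsum : 2 * Real.pi * ∑ p, ∑ q, ∑ a, T p q a * c p q * dc c p q a ≤
      ε₁ * ∑ p, ∑ q, ∑ a, |c p q| * |dc c p q a| +
        ε₂ * ∑ p, ∑ q, ∑ a, ∑ b, |c p q| * (|c q a| + 1 / 2 * |c a b|) := by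
    have h1 : ∀ p q, (2 * Real.pi) * (∑ a, T p q a * c p q * dc c p q a) ≤
      ε₁ * (∑ a, |c p q| * |dc c p q a|) + ε₂ * (∑ a, ∑ b, |c p q| * (|c q a| + 1 / 2 * |c a b|)) :=
      key
    calc 2 * Real.pi * ∑ p, ∑ q, ∑ a, T p q a * c p q * dc c p q a =
        ∑ p, ∑ q, 2 * Real.pi * ∑ a, T p q a * c p q * dc c p q a := by
          rw [Finset.mul_sum]
          refine Finset.sum_congr rfl fun p _ => ?_
          rw [Finset.mul_sum]
      _ ≤ ∑ p, ∑ q, (ε₁ * (∑ a, |c p q| * |dc c p q a|) +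
          ε₂ * (∑ a, ∑ b, |c p q| * (|c q a| + 1 / 2 * |c a b|))) :=
          Finset.sum_le_sum fun p _ => Finset.sum_le_sum fun q _ => h1 p q
      _ = _ := by
          rw [Finset.mul_sum, Finset.mul_sum, ← Finset.sum_add_distrib]
          refine Finset.sum_congr rfl fun p _ => ?_
          rw [Finset.mul_sum, Finset.mul_sum, ← Finset.sum_add_distrib]
  have hmain : 3 * N * n2 c ≤ 3 * ∑ p, ∑ q, ∑ a, T p q a * c p q * dc c p q a := by
    rw [sum_T c T hT, ← sum_dc c h0]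
    exact Finset.sum_le_sum fun p _ => Finset.sum_le_sum fun q _ => Finset.sum_le_sum fun a _ =>
      hT1 p q a
  have b1 := mul_le_mul_of_nonneg_left (err1 c) hε₁
  have b2 := mul_le_mul_of_nonneg_left (err2 c) hε₂
  have b3 : 2 * Real.pi * (N * n2 c) ≤
      2 * Real.pi * ∑ p, ∑ q, ∑ a, T p q a * c p q * dc c p q a :=
    mul_le_mul_of_nonneg_left (by linarith) (by positivity)
  linarith

theorem pow_bound (k : ℕ) : 1 + 2 * (k : ℝ) ≤ 3 ^ k := by
  induction k with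
  | zero => norm_num
  | succ n ih =>
    have h1 : (3 : ℝ) ^ (n + 1) = 3 ^ n * 3 := pow_succ _ _
    rw [h1]
    push_cast
    linarith [Nat.cast_nonneg (α := ℝ) n]

/-- the constants are good enough -/
theorem const_bound (N : ℕ) (hN : 3 ≤ N) :
    3 / 4 * Real.pi * (1 / 3) ^ (N - 2) * (3 * N) + 9 / 16 * Real.pi * (1 / 3) ^ (N - 2) *
      (3 / 2 * N ^ 2) < 2 * Real.pi * N := by
  obtain ⟨k, rfl⟩ : ∃ k, N = k + 3 := ⟨N - 3, by omega⟩
  have e : k + 3 - 2 = k + 1 := by omega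
  rw [e]
  have h1 := pow_bound (k + 1)
  have h2 : (0 : ℝ) < 3 ^ (k + 1) := by positivity
  have h3 : ((1 : ℝ) / 3) ^ (k + 1) = 1 / 3 ^ (k + 1) := by
    rw [div_pow, one_pow]
  set t : ℝ := 3 ^ (k + 1) with ht
  have hk : (0 : ℝ) ≤ k := Nat.cast_nonneg k
  push_cast at h1 ⊢
  have h4 : (9 / 4 + 27 / 32 * ((k : ℝ) + 3)) * (1 / 3) ^ (k + 1) < 2 := by
    rw [h3, mul_one_div, div_lt_iff₀ h2]
    linarith
  have h5 : 0 < Real.pi * ((k : ℝ) + 3) := by
    have := Real.pi_pos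
    positivity
  have h6 := mul_lt_mul_of_pos_left h4 h5
  linarith

/-- the conclusion -/
theorem eq_zero (hN : 3 ≤ N) (c : Fin N → Fin N → ℝ)
    (h : 2 * Real.pi * N * n2 c ≤ 3 / 4 * Real.pi * (1 / 3) ^ (N - 2) * (3 * N * n2 c) +
      9 / 16 * Real.pi * (1 / 3) ^ (N - 2) * (3 / 2 * N ^ 2 * n2 c)) : c = 0 := by
  have h1 := const_bound N hN
  have h2 : n2 c = 0 := by
    by_contra hne
    have h3 : 0 < n2 c := lt_of_le_of_ne (n2_nonneg c) (Ne.symm hne)
    have h4 := mul_lt_mul_of_pos_right h1 h3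
    linarith
  funext p q
  unfold n2 at h2
  have h3 := (Finset.sum_eq_zero_iff_of_nonneg fun p _ => Finset.sum_nonneg fun q _ =>
    sq_nonneg (c p q)).1 h2 p (Finset.mem_univ p)
  have h4 := (Finset.sum_eq_zero_iff_of_nonneg fun q _ => sq_nonneg (c p q)).1 h3 q
    (Finset.mem_univ q)
  exact pow_eq_zero_iff (two_ne_zero) |>.1 h4

end Pool.Agent.W5h29.LA.Alg
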