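import Pool.Agent.W5h29.LA.Node
set_option autoImplicit false

/-!
Estimates of the regulator integrals.
-/

namespace Pool.Agent.W5h29.LA.Nd

open MeasureTheory Set Metric Filter Topology

open Pool.Agent.TH826.MK (circ norm_circ contDiff_circ circ_add_one hasDerivAt_circ wd)

open Pool.Agent.TH826.UH (pr NZ nz_circ cont_int pr_mul pr_lin pr_const nz_circ_sub ld_circ)

open Pool.Agent.Y797.FP (pr_comp nz_comp wind_comp)

/-- derivative of `log |u|` along a path -/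
theorem hasDerivAt_logNorm {u : ℝ → ℂ} {u' : ℂ} {t : ℝ} (hu : HasDerivAt u u' t) (h0 : u t ≠ 0) :
    HasDerivAt (fun s => Real.log ‖u s‖) (u' / u t).re t := by
  have h1 : HasDerivAt (fun s => u s / u t) (u' / u t) t := hu.div_const _
  have hsl : u t / u t ∈ Complex.slitPlane := by rw [div_self h0]; simp
  have h2 : HasDerivAt (fun s => Complex.log (u s / u t)) (u' / u t) t := by
    have := h1.clog_real hsl
    rw [div_self h0, div_one] at this
    exact this
  have h3 : HasDerivAt (fun s => (Complex.log (u s / u t)).re) (u' / u t).re t :=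
    Complex.reCLM.hasFDerivAt.comp_hasDerivAt t h2
  have h4 : HasDerivAt (fun s => (Complex.log (u s / u t)).re + Real.log ‖u t‖) (u' / u t).re t := by
    simpa using h3.add_const (Real.log ‖u t‖)
  refine h4.congr_of_eventuallyEq ?_
  filter_upwards [hu.continuousAt.eventually_ne h0] with s hs
  rw [Complex.log_re, norm_div, Real.log_div (norm_ne_zero_iff.2 hs) (norm_ne_zero_iff.2 h0)]
  ring

theorem pr_antisymm (f g : ℝ → ℂ) : pr f g = -pr g f := by
  unfold pr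
  rw [← intervalIntegral.integral_neg]
  refine intervalIntegral.integral_congr fun s _ => ?_
  ring

theorem pr_self (f : ℝ → ℂ) : pr f f = 0 := by
  have := pr_antisymm f f
  linarith

theorem slit {z : ℂ} {ε : ℝ} (hε : ε ≤ 1 / 2) (h : ‖z - 1‖ ≤ ε) : z ∈ Complex.slitPlane := by
  refine Complex.mem_slitPlane_iff.2 (Or.inl ?_)
  have h2 := Complex.abs_re_le_norm (z - 1)
  have h3 := (abs_le.1 h2).1
  rw [Complex.sub_re, Complex.one_re] at h3
  linarith

/-- the second function is close to `1` -/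
theorem pr_small {f ρ : ℝ → ℂ} (nf : NZ f) (nρ : NZ ρ) (hf : f 1 = f 0) (hρ : ρ 1 = ρ 0)
    {ε B : ℝ} (hε : ε ≤ 1 / 2) (h1 : ∀ t, ‖ρ t - 1‖ ≤ ε) (hB : ∀ t, ‖deriv f t / f t‖ ≤ B) :
    |pr f ρ| ≤ 3 / 2 * ε * B := by
  have hfd : ∀ s, HasDerivAt f (deriv f s) s := fun s =>
    (nf.smooth.differentiable (by norm_num) s).hasDerivAt
  have hρd : ∀ s, HasDerivAt ρ (deriv ρ s) s := fun s =>
    (nρ.smooth.differentiable (by norm_num) s).hasDerivAt
  have hsl : ∀ s, ρ s ∈ Complex.slitPlane := fun s => slit hε (h1 s)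
  have hld : ∀ s, HasDerivAt (fun s => Complex.log (ρ s)) (deriv ρ s / ρ s) s := fun s =>
    (hρd s).clog_real (hsl s)
  have hW : ∀ s, HasDerivAt (fun s => Real.log ‖f s‖ * (Complex.log (ρ s)).im)
      ((deriv f s / f s).re * (Complex.log (ρ s)).im + Real.log ‖f s‖ * (deriv ρ s / ρ s).im) s := by
    intro s
    have a1 := hasDerivAt_logNorm (hfd s) (nf.ne_zero s)
    have a2 : HasDerivAt (fun s => (Complex.log (ρ s)).im) (deriv ρ s / ρ s).im s :=
      Complex.imCLM.hasFDerivAt.comp_hasDerivAt s (hld s)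
    exact a1.mul a2
  have hclog : Continuous fun s => Complex.log (ρ s) :=
    nρ.smooth.continuous.clog hsl
  have hcW : Continuous fun s => (deriv f s / f s).re * (Complex.log (ρ s)).im +
      Real.log ‖f s‖ * (deriv ρ s / ρ s).im :=
    ((Complex.continuous_re.comp nf.cont_ld).mul (Complex.continuous_im.comp hclog)).add
      (nf.cont_log.mul nρ.cont_im)
  have hint := intervalIntegral.integral_eq_sub_of_hasDerivAt (a := 0) (b := 1) (fun s _ => hW s)
    (hcW.intervalIntegrable _ _)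
  simp only [hf, hρ, sub_self] at hint
  have e : pr f ρ = ∫ s in (0 : ℝ)..1, -(Complex.log (ρ s) * (deriv f s / f s)).im := by
    have e0 : pr f ρ = (∫ s in (0 : ℝ)..1, (Real.log ‖f s‖ * (deriv ρ s / ρ s).im -
        Real.log ‖ρ s‖ * (deriv f s / f s).im)) - ∫ s in (0 : ℝ)..1,
        ((deriv f s / f s).re * (Complex.log (ρ s)).im + Real.log ‖f s‖ * (deriv ρ s / ρ s).im) := by
      rw [hint, sub_zero]
      rfl
    rw [e0, ← intervalIntegral.integral_sub ((cont_int nf nρ).intervalIntegrable _ _)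
        (hcW.intervalIntegrable _ _)]
    refine intervalIntegral.integral_congr fun s _ => ?_
    rw [Complex.mul_im, Complex.log_re]
    ring
  rw [e, ← Real.norm_eq_abs]
  have hb := intervalIntegral.norm_integral_le_of_norm_le_const (a := 0) (b := 1)
    (C := 3 / 2 * ε * B) (f := fun s => -(Complex.log (ρ s) * (deriv f s / f s)).im) ?_
  · rwa [sub_zero, abs_one, mul_one] at hb
  · intro s _
    rw [norm_neg, Real.norm_eq_abs]
    refine (Complex.abs_im_le_norm _).trans ?_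
    rw [norm_mul]
    have h2 : ‖Complex.log (ρ s)‖ ≤ 3 / 2 * ε := by
      have h3 := Complex.norm_log_one_add_half_le_self ((h1 s).trans hε)
      rw [add_sub_cancel] at h3
      have := h1 s
      linarith
    have hε0 : 0 ≤ ε := (norm_nonneg _).trans (h1 s)
    exact mul_le_mul h2 (hB s) (norm_nonneg _) (by positivity)

theorem circ_one_zero : circ 1 1 = circ 1 0 := by
  have := circ_add_one 1 0
  rwa [zero_add] at this

theorem norm_deriv_circ (t : ℝ) : ‖deriv (circ 1) t‖ = 2 * Real.pi := by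
  rw [(hasDerivAt_circ 1 t).deriv, norm_mul, norm_circ zero_le_one, mul_one]
  simp [abs_of_pos Real.pi_pos]

theorem lin_nz {Λ r : ℂ} (hΛ : 5 ≤ ‖Λ‖) (hr : ‖r‖ ≤ 1) (z : ℂ) (hz : z ∈ ball (0 : ℂ) 2) :
    Λ + r * z ≠ 0 := by
  intro h
  have h1 : Λ = -(r * z) := eq_neg_of_add_eq_zero_left h
  have h2 : ‖Λ‖ ≤ 1 * 2 := by
    rw [h1, norm_neg, norm_mul]
    exact mul_le_mul hr (mem_ball_zero_iff.1 hz).le (norm_nonneg _) zero_le_one
  linarith

theorem lin_diff (Λ r : ℂ) : DifferentiableOn ℂ (fun z => Λ + r * z) (ball (0 : ℂ) 2) :=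
  ((differentiable_const _).add ((differentiable_const _).mul differentiable_id)).differentiableOn

theorem circ_mem (t : ℝ) : circ 1 t ∈ ball (0 : ℂ) 2 := by
  rw [mem_ball_zero_iff, norm_circ zero_le_one]
  norm_num

theorem nz_h {Λ r : ℂ} (hΛ : 5 ≤ ‖Λ‖) (hr : ‖r‖ ≤ 1) : NZ fun t => Λ + r * circ 1 t :=
  nz_comp (lin_diff Λ r) (lin_nz hΛ hr) (contDiff_circ 1) circ_mem

theorem pr_h_h {Λ r Λ' r' : ℂ} (hΛ : 5 ≤ ‖Λ‖) (hr : ‖r‖ ≤ 1) (hΛ' : 5 ≤ ‖Λ'‖) (hr' : ‖r'‖ ≤ 1) :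
    pr (fun t => Λ + r * circ 1 t) (fun t => Λ' + r' * circ 1 t) = 0 :=
  pr_comp (lin_diff Λ r) (lin_nz hΛ hr) (lin_diff Λ' r') (lin_nz hΛ' hr') (contDiff_circ 1) circ_mem
    circ_one_zero

theorem pr_X_h {Λ r : ℂ} (hΛ : 5 ≤ ‖Λ‖) (hr : ‖r‖ ≤ 1) :
    pr (circ 1) (fun t => Λ + r * circ 1 t) = -(2 * Real.pi * Real.log ‖Λ‖) := by
  by_cases h0 : r = 0
  · subst h0
    simp only [zero_mul, add_zero]
    exact pr_const one_pos Λ
  · have hr0 : 0 < ‖r‖ := norm_pos_iff.2 h0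
    have hc : 1 < ‖-(Λ / r)‖ := by
      rw [norm_neg, norm_div, lt_div_iff₀ hr0]
      linarith
    have hcn : ‖-(Λ / r)‖ ≠ 1 := hc.ne'
    have h00 : ‖(0 : ℂ)‖ ≠ 1 := by rw [norm_zero]; exact zero_ne_one
    have e : (fun t => Λ + r * circ 1 t) = fun t => r * (circ 1 t - -(Λ / r)) := by
      funext t
      field_simp
      ring
    have hcst : NZ fun _ : ℝ => r := ⟨contDiff_const, fun _ => h0⟩
    rw [e, pr_mul (nz_circ one_pos) hcst (nz_circ_sub one_pos hcn), pr_const one_pos r]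
    have h1 := pr_lin one_pos h00 hcn
    have e2 : (fun s => circ 1 s - 0) = circ 1 := by
      funext s
      rw [sub_zero]
    rw [e2] at h1
    rw [h1]
    unfold wd
    rw [if_neg (not_lt.2 hc.le), if_pos (by rw [norm_zero]; exact one_pos), zero_sub, neg_neg,
      norm_div, Real.log_div (by linarith) hr0.ne']
    ring

variable {ι : Type*} {A : Finset ι} {Λ r s : ι → ℂ} {u : ℂ}

/-- the properties of the loop -/
structure Lp (A : Finset ι) (Λ r s : ι → ℂ) (u : ℂ) (Y : ℝ → ℂ) : Prop where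
  good : Good A Λ r s u
  smooth : ContDiff ℝ 2 Y
  per : ∀ t, Y (t + 1) = Y t
  small : ∀ t, ‖Y t‖ ≤ (1 / 3) ^ A.card
  ne : ∀ t, Y t ≠ 0
  lip : ∀ t, ‖deriv Y t‖ ≤ Real.pi
  eq : ∀ t, circ 1 t * Y t * ∏ a ∈ A, M Λ r s a (circ 1 t) (Y t) = u

variable {Y : ℝ → ℂ}

theorem Lp.le1 (h : Lp A Λ r s u Y) (t : ℝ) : ‖Y t‖ ≤ 1 := by
  have := (h.small t).trans (pow_le_third h.good)
  linarith

theorem Lp.nzY (h : Lp A Λ r s u Y) : NZ Y := ⟨h.smooth, h.ne⟩

theorem Lp.nzM (h : Lp A Λ r s u Y) {a : ι} (ha : a ∈ A) :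
    NZ fun t => M Λ r s a (circ 1 t) (Y t) := by
  refine ⟨?_, fun t => M_ne h.good ha (norm_circ zero_le_one t).le (h.le1 t)⟩
  unfold M
  exact (contDiff_const.add (contDiff_const.mul (contDiff_circ 1))).add
    (contDiff_const.mul h.smooth)

theorem Lp.Y1 (h : Lp A Λ r s u Y) : Y 1 = Y 0 := by
  have := h.per 0
  rwa [zero_add] at this

theorem Lp.M1 (h : Lp A Λ r s u Y) (a : ι) :
    M Λ r s a (circ 1 1) (Y 1) = M Λ r s a (circ 1 0) (Y 0) := by
  rw [circ_one_zero, h.Y1]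

theorem h_ge (h : Good A Λ r s u) {a : ι} (ha : a ∈ A) (t : ℝ) : 4 ≤ ‖Λ a + r a * circ 1 t‖ := by
  have h1 : ‖r a * circ 1 t‖ ≤ 1 := by
    rw [norm_mul, norm_circ zero_le_one, mul_one]
    exact h.r1 a ha
  have h2 : ‖Λ a‖ ≤ ‖Λ a + r a * circ 1 t‖ + ‖r a * circ 1 t‖ := by
    have e : Λ a = (Λ a + r a * circ 1 t) - r a * circ 1 t := by ring
    conv_lhs => rw [e]
    exact norm_sub_le _ _
  have := h.big a ha
  linarith

/-- the quotient -/
noncomputable def rh (Λ r s : ι → ℂ) (Y : ℝ → ℂ) (a : ι) (t : ℝ) : ℂ :=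
  M Λ r s a (circ 1 t) (Y t) / (Λ a + r a * circ 1 t)

theorem Lp.nzrh (h : Lp A Λ r s u Y) {a : ι} (ha : a ∈ A) : NZ (rh Λ r s Y a) :=
  (h.nzM ha).div (nz_h (h.good.big a ha) (h.good.r1 a ha))

theorem Lp.rh1 (h : Lp A Λ r s u Y) (a : ι) : rh Λ r s Y a 1 = rh Λ r s Y a 0 := by
  unfold rh
  rw [h.M1, circ_one_zero]

theorem Lp.rh_small (h : Lp A Λ r s u Y) {a : ι} (ha : a ∈ A) (t : ℝ) :
    ‖rh Λ r s Y a t - 1‖ ≤ (1 / 3) ^ A.card / 4 := by
  have h4 := h_ge h.good ha t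
  have hn := (nz_h (h.good.big a ha) (h.good.r1 a ha)).ne_zero t
  have e : rh Λ r s Y a t - 1 = s a * Y t / (Λ a + r a * circ 1 t) := by
    unfold rh M
    rw [eq_div_iff hn, sub_mul, div_mul_cancel₀ _ hn]
    ring
  rw [e, norm_div, div_le_div_iff₀ (by linarith) (by norm_num)]
  have h5 : ‖s a * Y t‖ ≤ (1 / 3) ^ A.card := by
    rw [norm_mul]
    calc _ ≤ 1 * (1 / 3) ^ A.card :=
          mul_le_mul (h.good.s1 a ha) (h.small t) (norm_nonneg _) zero_le_one
      _ = _ := one_mul _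
  exact mul_le_mul h5 h4 (by norm_num) (by positivity)

theorem Lp.eps (h : Lp A Λ r s u Y) : ((1 : ℝ) / 3) ^ A.card / 4 ≤ 1 / 2 := by
  have := pow_le_third h.good
  linarith

theorem Lp.M_eq (h : Lp A Λ r s u Y) {a : ι} (ha : a ∈ A) :
    (fun t => M Λ r s a (circ 1 t) (Y t)) = fun t => (Λ a + r a * circ 1 t) * rh Λ r s Y a t := by
  funext t
  unfold rh
  rw [mul_div_cancel₀ _ ((nz_h (h.good.big a ha) (h.good.r1 a ha)).ne_zero t)]

/-- the first estimate -/
theorem Lp.est1 (h : Lp A Λ r s u Y) {a : ι} (ha : a ∈ A) :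
    |pr (circ 1) (fun t => M Λ r s a (circ 1 t) (Y t)) + 2 * Real.pi * Real.log ‖Λ a‖| ≤
      3 / 4 * Real.pi * (1 / 3) ^ A.card := by
  have hn := nz_h (h.good.big a ha) (h.good.r1 a ha)
  rw [h.M_eq ha, pr_mul (nz_circ one_pos) hn (h.nzrh ha), pr_X_h (h.good.big a ha) (h.good.r1 a ha),
    neg_add_cancel_comm]
  have h1 := pr_small (nz_circ one_pos) (h.nzrh ha) circ_one_zero (h.rh1 a) h.eps (h.rh_small ha)
    (B := 2 * Real.pi) (fun t => by
      rw [norm_div, norm_deriv_circ, norm_circ zero_le_one, div_one])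
  refine h1.trans (le_of_eq ?_)
  ring

theorem Lp.ld_h (h : Lp A Λ r s u Y) {a : ι} (ha : a ∈ A) (t : ℝ) :
    ‖deriv (fun t => Λ a + r a * circ 1 t) t / (Λ a + r a * circ 1 t)‖ ≤ Real.pi / 2 := by
  have h4 := h_ge h.good ha t
  have hd : HasDerivAt (fun t => Λ a + r a * circ 1 t) (r a * deriv (circ 1) t) t := by
    rw [(hasDerivAt_circ 1 t).deriv]
    exact ((hasDerivAt_circ 1 t).const_mul (r a)).const_add (Λ a)
  rw [hd.deriv, norm_div, norm_mul, norm_deriv_circ, div_le_iff₀ (by linarith)]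
  have h5 := h.good.r1 a ha
  have hp := Real.pi_pos
  nlinarith [norm_nonneg (r a), mul_le_mul_of_nonneg_right h5 (by positivity : 0 ≤ 2 * Real.pi)]

theorem Lp.ld_M (h : Lp A Λ r s u Y) {a : ι} (ha : a ∈ A) (t : ℝ) :
    ‖deriv (fun t => M Λ r s a (circ 1 t) (Y t)) t / M Λ r s a (circ 1 t) (Y t)‖ ≤ Real.pi := by
  have h3 := M_ge h.good ha (norm_circ zero_le_one t).le (h.le1 t)
  have hY : HasDerivAt Y (deriv Y t) t := (h.smooth.differentiable (by norm_num) t).hasDerivAt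
  have hd : HasDerivAt (fun t => M Λ r s a (circ 1 t) (Y t))
      (r a * deriv (circ 1) t + s a * deriv Y t) t := by
    rw [(hasDerivAt_circ 1 t).deriv]
    exact (((hasDerivAt_circ 1 t).const_mul (r a)).const_add (Λ a)).add (hY.const_mul (s a))
  rw [hd.deriv, norm_div, div_le_iff₀ (by linarith)]
  have h5 : ‖r a * deriv (circ 1) t‖ ≤ 1 * (2 * Real.pi) := by
    rw [norm_mul, norm_deriv_circ]
    exact mul_le_mul_of_nonneg_right (h.good.r1 a ha) (by positivity)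
  have h6 : ‖s a * deriv Y t‖ ≤ 1 * Real.pi := by
    rw [norm_mul]
    exact mul_le_mul (h.good.s1 a ha) (h.lip t) (norm_nonneg _) zero_le_one
  have h7 := norm_add_le (r a * deriv (circ 1) t) (s a * deriv Y t)
  have hp := Real.pi_pos
  nlinarith

/-- the second estimate -/
theorem Lp.est2 (h : Lp A Λ r s u Y) {a b : ι} (ha : a ∈ A) (hb : b ∈ A) :
    |pr (fun t => M Λ r s a (circ 1 t) (Y t)) (fun t => M Λ r s b (circ 1 t) (Y t))| ≤
      9 / 16 * Real.pi * (1 / 3) ^ A.card := by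
  have na := nz_h (h.good.big a ha) (h.good.r1 a ha)
  have nb := nz_h (h.good.big b hb) (h.good.r1 b hb)
  have e1 : pr (fun t => M Λ r s b (circ 1 t) (Y t)) (fun t => M Λ r s a (circ 1 t) (Y t)) =
      pr (fun t => M Λ r s b (circ 1 t) (Y t)) (fun t => Λ a + r a * circ 1 t) +
        pr (fun t => M Λ r s b (circ 1 t) (Y t)) (rh Λ r s Y a) := by
    rw [h.M_eq ha]
    exact pr_mul (h.nzM hb) na (h.nzrh ha)
  have e2 : pr (fun t => Λ a + r a * circ 1 t) (fun t => M Λ r s b (circ 1 t) (Y t)) =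
      pr (fun t => Λ a + r a * circ 1 t) (rh Λ r s Y b) := by
    rw [h.M_eq hb, pr_mul na nb (h.nzrh hb), pr_h_h (h.good.big a ha) (h.good.r1 a ha)
      (h.good.big b hb) (h.good.r1 b hb), zero_add]
  have e3 : pr (fun t => M Λ r s a (circ 1 t) (Y t)) (fun t => M Λ r s b (circ 1 t) (Y t)) =
      pr (fun t => Λ a + r a * circ 1 t) (rh Λ r s Y b) -
        pr (fun t => M Λ r s b (circ 1 t) (Y t)) (rh Λ r s Y a) := by
    rw [pr_antisymm, e1, pr_antisymm (fun t => M Λ r s b (circ 1 t) (Y t)), e2]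
    ring
  have b1 := pr_small na (h.nzrh hb) (by simp only [circ_one_zero]) (h.rh1 b) h.eps (h.rh_small hb)
    (h.ld_h ha)
  have b2 := pr_small (h.nzM hb) (h.nzrh ha) (h.M1 b) (h.rh1 a) h.eps (h.rh_small ha) (h.ld_M hb)
  rw [e3]
  refine (abs_sub _ _).trans ?_
  have hp := Real.pi_pos
  nlinarith

/-- the winding number vanishes -/
theorem Lp.wind (h : Lp A Λ r s u Y) {a : ι} (ha : a ∈ A) :
    ∫ t in (0 : ℝ)..1, (deriv (fun t => M Λ r s a (circ 1 t) (Y t)) t /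
      M Λ r s a (circ 1 t) (Y t)).im = 0 := by
  have hb : ∀ t, M Λ r s a (circ 1 t) (Y t) ∈ ball (Λ a) 3 := by
    intro t
    rw [mem_ball, dist_eq_norm]
    have e : M Λ r s a (circ 1 t) (Y t) - Λ a = r a * circ 1 t + s a * Y t := by
      unfold M
      ring
    rw [e]
    refine (norm_add_le _ _).trans_lt ?_
    rw [norm_mul, norm_mul, norm_circ zero_le_one]
    have h1 := h.good.r1 a ha
    have h2 : ‖s a‖ * ‖Y t‖ ≤ 1 * 1 :=
      mul_le_mul (h.good.s1 a ha) (h.le1 t) (norm_nonneg _) zero_le_one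
    linarith
  have h0 : ∀ z ∈ ball (Λ a) 3, z ≠ 0 := by
    rintro z hz rfl
    rw [mem_ball, dist_eq_norm, zero_sub, norm_neg] at hz
    have := h.good.big a ha
    linarith
  exact wind_comp (g := fun z => z) differentiableOn_id h0 (h.nzM ha).smooth hb (h.M1 a)

end Pool.Agent.W5h29.LA.Nd
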