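import Pool.Agent.W5h29.LA.Smooth
import Pool.Agent.W5h29.LA.Est
import Pool.Agent.W5h29.LA.Alg
set_option autoImplicit false

/-!
The regulators are independent.
-/

namespace Pool.Agent.W5h29.LA

open MvPolynomial

open Pool.Agent.TH826.MK (KQ symb Torus pairing norm_circ contDiff_circ circ_add_one
  hasDerivAt_circ)

open Pool.Agent.TH826.UH (pr NZ nz_circ pairing_eq_pr pr_prod pr_mul ld_circ)

namespace Dat

variable {K : Type*} [Field K] {N : ℕ} {D : Dat K N} {σ : K →+* ℂ}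

/-- evaluation at a complex point -/
noncomputable def ev (D : Dat K N) (σ : K →+* ℂ) (z : Fin 2 → ℂ) (hz : eval₂Hom σ z D.eqn = 0) :
    D.CRing →+* ℂ :=
  (Ideal.Quotient.lift (Ideal.span {D.eqn}) (eval₂Hom σ z) (fun a ha => by
    obtain ⟨b, rfl⟩ := Ideal.mem_span_singleton.1 ha
    rw [map_mul, hz, zero_mul]) : MvPolynomial (Fin 2) K ⧸ Ideal.span {D.eqn} →+* ℂ)

theorem ev_fn (z : Fin 2 → ℂ) (hz : eval₂Hom σ z D.eqn = 0) (P : MvPolynomial (Fin 2) K) :
    D.ev σ z hz (D.fn P) = eval₂Hom σ z P :=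
  Ideal.Quotient.lift_mk _ _ _

theorem ev_cst (z : Fin 2 → ℂ) (hz : eval₂Hom σ z D.eqn = 0) (y : K) :
    D.ev σ z hz (D.cst y) = σ y := by
  unfold cst
  rw [ev_fn, eval₂Hom_C]

theorem ev_u (z : Fin 2 → ℂ) (hz : eval₂Hom σ z D.eqn = 0) (p : Fin N) :
    D.ev σ z hz (D.u p : D.CRing) = D.val σ z p := by
  rw [coe_u, ev_fn, eval_line']

theorem ev_congr {z z' : Fin 2 → ℂ} (hz : eval₂Hom σ z D.eqn = 0) (hz' : eval₂Hom σ z' D.eqn = 0)
    (e : z = z') : D.ev σ z hz = D.ev σ z' hz' := by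
  subst e
  rfl

theorem contDiff_ev {Z : ℝ → Fin 2 → ℂ} (hZ : ∀ i, ContDiff ℝ 2 fun t => Z t i)
    (hz : ∀ t, eval₂Hom σ (Z t) D.eqn = 0) (b : D.CRing) :
    ContDiff ℝ 2 fun t => D.ev σ (Z t) (hz t) b := by
  obtain ⟨P, rfl⟩ : ∃ P, D.fn P = b := Ideal.Quotient.mk_surjective b
  simp only [ev_fn]
  induction P using MvPolynomial.induction_on with
  | C a =>
    simp only [eval₂Hom_C]
    exact contDiff_const
  | add P Q hP hQ =>
    simp only [map_add]
    exact hP.add hQ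
  | mul_X P i hP =>
    simp only [map_mul, eval₂Hom_X']
    exact hP.mul (hZ i)

/-- a loop -/
noncomputable def mkL {Z : ℝ → Fin 2 → ℂ} (hZ : ∀ i, ContDiff ℝ 2 fun t => Z t i)
    (hZ1 : ∀ t, Z (t + 1) = Z t) (hz : ∀ t, eval₂Hom σ (Z t) D.eqn = 0) : Torus D.CRing 1 where
  e θ := D.ev σ (Z (θ 0)) (hz (θ 0))
  smooth b := (contDiff_ev hZ hz b).comp (contDiff_apply ℝ ℝ 0)
  periodic θ i := by
    have h0 : (θ + Pi.single i 1 : Fin 1 → ℝ) 0 = θ 0 + 1 := by
      rw [Pi.add_apply, Subsingleton.elim i 0, Pi.single_eq_same]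
    refine ev_congr _ _ ?_
    rw [h0, hZ1]

theorem mkL_reg {Z : ℝ → Fin 2 → ℂ} (hZ : ∀ i, ContDiff ℝ 2 fun t => Z t i)
    (hZ1 : ∀ t, Z (t + 1) = Z t) (hz : ∀ t, eval₂Hom σ (Z t) D.eqn = 0)
    (hn : ∀ a, NZ fun t => D.val σ (Z t) a) (a b : Fin N) :
    (mkL hZ hZ1 hz).reg (symb ![D.u a, D.u b]) =
      pr (fun t => D.val σ (Z t) a) fun t => D.val σ (Z t) b := by
  rw [← pairing_eq_pr (hn a) (hn b), Torus.reg_symb]
  unfold Torus.pair
  congr 1
  funext i θ
  fin_cases i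
  · exact ev_u (Z (θ 0)) (hz (θ 0)) a
  · exact ev_u (Z (θ 0)) (hz (θ 0)) b

/-- the point with given values of `L_p` and `L_q` -/
noncomputable def pt (D : Dat K N) (σ : K →+* ℂ) (p q : Fin N) (X Y : ℂ) : Fin 2 → ℂ :=
  ![(σ (D.be q) * (X - σ (D.ga p)) - σ (D.be p) * (Y - σ (D.ga q))) / σ (D.det2 p q),
    (σ (D.al p) * (Y - σ (D.ga q)) - σ (D.al q) * (X - σ (D.ga p))) / σ (D.det2 p q)]

theorem val_pt_left {p q : Fin N} (hd : D.det2 p q ≠ 0) (X Y : ℂ) :
    D.val σ (D.pt σ p q X Y) p = X := by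
  have h1 : σ (D.det2 p q) ≠ 0 := (map_ne_zero σ).2 hd
  have h2 : σ (D.det2 p q) = σ (D.al p) * σ (D.be q) - σ (D.al q) * σ (D.be p) := by
    unfold det2
    rw [map_sub, map_mul, map_mul]
  unfold val pt
  simp only [Matrix.cons_val_zero, Matrix.cons_val_one]
  field_simp
  rw [h2]
  ring

theorem val_pt_right {p q : Fin N} (hd : D.det2 p q ≠ 0) (X Y : ℂ) :
    D.val σ (D.pt σ p q X Y) q = Y := by
  have h1 : σ (D.det2 p q) ≠ 0 := (map_ne_zero σ).2 hd
  have h2 : σ (D.det2 p q) = σ (D.al p) * σ (D.be q) - σ (D.al q) * σ (D.be p) := by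
    unfold det2
    rw [map_sub, map_mul, map_mul]
  unfold val pt
  simp only [Matrix.cons_val_zero, Matrix.cons_val_one]
  field_simp
  rw [h2]
  ring

/-- the coefficients -/
noncomputable def La (D : Dat K N) (σ : K →+* ℂ) (δ : ℝ) (p q a : Fin N) : ℂ :=
  σ (D.det3 p q a) / σ (D.det2 p q) / δ

/-- the coefficients -/
noncomputable def ra (D : Dat K N) (σ : K →+* ℂ) (p q a : Fin N) : ℂ :=
  σ (D.det2 a q) / σ (D.det2 p q)

/-- the coefficients -/
noncomputable def sa (D : Dat K N) (σ : K →+* ℂ) (p q a : Fin N) : ℂ :=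
  σ (D.det2 p a) / σ (D.det2 p q)

theorem val_pt {δ : ℝ} (hδ : 0 < δ) {p q : Fin N} (hd : D.det2 p q ≠ 0) (X Y : ℂ) (a : Fin N) :
    D.val σ (D.pt σ p q (δ * X) (δ * Y)) a =
      δ * Nd.M (D.La σ δ p q) (D.ra σ p q) (D.sa σ p q) a X Y := by
  have h1 : σ (D.det2 p q) ≠ 0 := (map_ne_zero σ).2 hd
  have hδ0 : (δ : ℂ) ≠ 0 := by
    exact_mod_cast hδ.ne'
  have h2 := val_rel (D := D) σ (D.pt σ p q (δ * X) (δ * Y)) p q a
  rw [val_pt_left hd, val_pt_right hd] at h2
  unfold Nd.M La ra sa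
  rw [h2, D.det2_symm a q, D.det2_symm a p, map_neg, map_neg]
  field_simp
  ring

/-- the other lines -/
def oth (p q : Fin N) : Finset (Fin N) := (Finset.univ.erase p).erase q

theorem mem_oth {p q a : Fin N} : a ∈ oth p q ↔ a ≠ p ∧ a ≠ q := by
  unfold oth
  rw [Finset.mem_erase, Finset.mem_erase]
  constructor
  · rintro ⟨h1, h2, -⟩
    exact ⟨h2, h1⟩
  · rintro ⟨h1, h2⟩
    exact ⟨h2, h1, Finset.mem_univ a⟩

theorem card_oth {p q : Fin N} (hpq : p ≠ q) : (oth p q).card = N - 2 := by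
  unfold oth
  rw [Finset.card_erase_of_mem (Finset.mem_erase.2 ⟨hpq.symm, Finset.mem_univ q⟩),
    Finset.card_erase_of_mem (Finset.mem_univ p), Finset.card_univ, Fintype.card_fin]
  omega

theorem norm_La (hdir : D.Directions) {δ : ℝ} (hδ : 0 < δ) {p q : Fin N} (hd : D.det2 p q ≠ 0)
    (a : Fin N) : ‖D.La σ δ p q a‖ = ‖σ (D.det3 p q a)‖ / δ := by
  unfold La
  rw [norm_div, norm_div, norm_det2 hdir σ hd, div_one, Complex.norm_real, Real.norm_eq_abs,
    abs_of_pos hδ]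

theorem good (hdir : D.Directions) {δ : ℝ} (hδ : 0 < δ) (hl : 1 ≤ ‖σ D.lam‖ * δ ^ N)
    (hsep : ∀ p q a, D.det2 p q ≠ 0 → a ≠ p → a ≠ q → 5 * δ ≤ ‖σ (D.det3 p q a)‖)
    (hN : 3 ≤ N) {p q : Fin N} (hd : D.det2 p q ≠ 0) :
    Nd.Good (oth p q) (D.La σ δ p q) (D.ra σ p q) (D.sa σ p q) (σ D.lam * δ ^ N)⁻¹ where
  big a ha := by
    rw [norm_La hdir hδ hd, le_div_iff₀ hδ]
    exact hsep p q a hd (mem_oth.1 ha).1 (mem_oth.1 ha).2
  r1 a _ := by
    unfold ra
    rw [norm_div, norm_det2 hdir σ hd, div_one]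
    exact norm_det2_le hdir σ _ _
  s1 a _ := by
    unfold sa
    rw [norm_div, norm_det2 hdir σ hd, div_one]
    exact norm_det2_le hdir σ _ _
  u1 := by
    rw [norm_inv, norm_mul, norm_pow, Complex.norm_real, Real.norm_eq_abs, abs_of_pos hδ]
    exact inv_le_one_of_one_le₀ hl
  u0 := by
    apply inv_ne_zero
    rw [← norm_pos_iff, norm_mul, norm_pow, Complex.norm_real, Real.norm_eq_abs, abs_of_pos hδ]
    linarith
  k1 := by
    rw [card_oth (ne_of_det2 hd)]
    omega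

/-- the integral of a function and a constant -/
theorem pr_cst (G : ℝ → ℂ) (c : ℂ) :
    pr G (fun _ => c) = -(Real.log ‖c‖ * ∫ s in (0 : ℝ)..1, (deriv G s / G s).im) := by
  unfold pr
  rw [← intervalIntegral.integral_const_mul, ← intervalIntegral.integral_neg]
  refine intervalIntegral.integral_congr fun s _ => ?_
  simp

theorem pr_scale {F G : ℝ → ℂ} (hF : NZ F) (hG : NZ G) {x : ℂ} (hx : x ≠ 0) :
    pr (fun t => x * F t) (fun t => x * G t) =
      pr F G + pr (fun _ => x) G - pr (fun _ => x) F := by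
  have hc : NZ fun _ : ℝ => x := ⟨contDiff_const, fun _ => hx⟩
  have h1 := pr_mul (hc.mul hF) hc hG
  rw [h1, Nd.pr_antisymm _ (fun _ => x), Nd.pr_antisymm (fun t => x * F t) G, pr_mul hc hc hF,
    pr_mul hG hc hF, Nd.pr_self, Nd.pr_antisymm G F, Nd.pr_antisymm G (fun _ => x)]
  ring

/-- the loop around a node -/
theorem exists_loop (hdir : D.Directions) {δ : ℝ} (hδ : 0 < δ) (hl : 1 ≤ ‖σ D.lam‖ * δ ^ N)
    (hsep : ∀ p q a, D.det2 p q ≠ 0 → a ≠ p → a ≠ q → 5 * δ ≤ ‖σ (D.det3 p q a)‖)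
    (hN : 3 ≤ N) {p q : Fin N}
    (hd : D.det2 p q ≠ 0) : ∃ (E : Fin N → Fin N → ℝ) (w : Fin N → ℝ) (T : Torus D.CRing 1),
      (∀ θ y, T.e θ (D.cst y) = σ y) ∧
      (∀ a b, T.reg (symb ![D.u a, D.u b]) = E a b + w b - w a) ∧
      (∀ a b, E b a = -E a b) ∧ ∑ b, E p b = 2 * Real.pi * Real.log (‖σ D.lam‖ * δ ^ N) ∧
      (∀ a, a ≠ p → a ≠ q → ∑ b, E a b = 0) ∧
      (∀ a, a ≠ p → a ≠ q → |E p a + 2 * Real.pi * Real.log (‖σ (D.det3 p q a)‖ / δ)| ≤
        3 / 4 * Real.pi * (1 / 3) ^ (N - 2)) ∧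
      ∀ a b, a ≠ p → a ≠ q → b ≠ p → b ≠ q → |E a b| ≤ 9 / 16 * Real.pi * (1 / 3) ^ (N - 2) := by
  classical
  have hpq := ne_of_det2 hd
  have hg := good hdir hδ hl hsep hN hd
  have hδ0 : (δ : ℂ) ≠ 0 := by
    exact_mod_cast hδ.ne'
  obtain ⟨Y, h1, h2, h3, h4, h5, h6⟩ := Nd.exists_Y hg
  have hL : Nd.Lp (oth p q) (D.La σ δ p q) (D.ra σ p q) (D.sa σ p q) (σ D.lam * δ ^ N)⁻¹ Y :=
    ⟨hg, h1, h2, h3, h4, h5, h6⟩
  set Z : ℝ → Fin 2 → ℂ := fun t => D.pt σ p q (δ * TH826.MK.circ 1 t) (δ * Y t) with hZdef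
  have hZ : ∀ i, ContDiff ℝ 2 fun t => Z t i := by
    intro i
    have c1 : ContDiff ℝ 2 fun t => (δ : ℂ) * TH826.MK.circ 1 t := contDiff_const.mul (contDiff_circ 1)
    have c2 : ContDiff ℝ 2 fun t => (δ : ℂ) * Y t := contDiff_const.mul h1
    fin_cases i
    · exact ((contDiff_const.mul (c1.sub contDiff_const)).sub
        (contDiff_const.mul (c2.sub contDiff_const))).div_const _
    · exact ((contDiff_const.mul (c2.sub contDiff_const)).sub
        (contDiff_const.mul (c1.sub contDiff_const))).div_const _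
  have hZ1 : ∀ t, Z (t + 1) = Z t := by
    intro t
    simp only [hZdef]
    rw [circ_add_one, h2]
  set f : Fin N → ℝ → ℂ := fun a t => D.val σ (Z t) a / δ with hf
  have hval : ∀ a t, D.val σ (Z t) a = δ * f a t := by
    intro a t
    simp only [hf]
    rw [mul_div_cancel₀ _ hδ0]
  have vp : f p = TH826.MK.circ 1 := funext fun t => by
    simp only [hf, hZdef]
    rw [val_pt_left hd, mul_div_cancel_left₀ _ hδ0]
  have vq : f q = Y := funext fun t => by
    simp only [hf, hZdef]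
    rw [val_pt_right hd, mul_div_cancel_left₀ _ hδ0]
  have va : ∀ a, f a =
      fun t => Nd.M (D.La σ δ p q) (D.ra σ p q) (D.sa σ p q) a (TH826.MK.circ 1 t) (Y t) :=
    fun a => funext fun t => by
      simp only [hf, hZdef]
      rw [val_pt hδ hd, mul_div_cancel_left₀ _ hδ0]
  have hl0' : 0 < ‖σ D.lam‖ := by
    rcases (norm_nonneg (σ D.lam)).lt_or_eq with h | h
    · exact h
    · rw [← h, zero_mul] at hl
      linarith
  have hl0 : σ D.lam ≠ 0 := norm_pos_iff.1 hl0'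
  have hprod : ∀ t, ∏ a, f a t = (σ D.lam * δ ^ N)⁻¹ := by
    intro t
    rw [← h6 t, ← Finset.mul_prod_erase _ _ (Finset.mem_univ p),
      ← Finset.mul_prod_erase _ _ (Finset.mem_erase.2 ⟨hpq.symm, Finset.mem_univ q⟩), mul_assoc,
      congrFun vp t, congrFun vq t]
    congr 2
    exact Finset.prod_congr rfl fun a _ => congrFun (va a) t
  have hz : ∀ t, eval₂Hom σ (Z t) D.eqn = 0 := by
    intro t
    unfold eqn
    rw [map_sub, map_mul, map_prod, eval₂Hom_C, map_one]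
    simp only [eval_line', hval]
    rw [Finset.prod_mul_distrib, hprod, Finset.prod_const, Finset.card_univ, Fintype.card_fin,
      mul_inv]
    have h7 : (δ : ℂ) ^ N ≠ 0 := pow_ne_zero _ hδ0
    field_simp
    ring
  have hnf : ∀ a, NZ (f a) := by
    intro a
    by_cases hap : a = p
    · rw [hap, vp]
      exact nz_circ one_pos
    by_cases haq : a = q
    · rw [haq, vq]
      exact hL.nzY
    rw [va a]
    exact hL.nzM (mem_oth.2 ⟨hap, haq⟩)
  have hc : NZ fun _ : ℝ => (δ : ℂ) := ⟨contDiff_const, fun _ => hδ0⟩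
  have hn : ∀ a, NZ fun t => D.val σ (Z t) a := by
    intro a
    simp only [hval]
    exact hc.mul (hnf a)
  have hrow : ∀ a, ∑ b, pr (f a) (f b) =
      Real.log (‖σ D.lam‖ * δ ^ N) * ∫ s in (0 : ℝ)..1, (deriv (f a) s / f a s).im := by
    intro a
    rw [← pr_prod Finset.univ (hnf a) (H := f) hnf]
    simp only [hprod]
    rw [pr_cst, norm_inv, Real.log_inv, norm_mul, norm_pow, Complex.norm_real, Real.norm_eq_abs,
      abs_of_pos hδ]
    ring
  refine ⟨fun a b => pr (f a) (f b), fun a => pr (fun _ => (δ : ℂ)) (f a), mkL hZ hZ1 hz,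
    fun θ y => ev_cst (Z (θ 0)) (hz (θ 0)) y, fun a b => ?_, fun a b => Nd.pr_antisymm _ _,
    ?_, ?_, ?_, ?_⟩
  · rw [mkL_reg hZ hZ1 hz hn]
    simp only [hval]
    exact pr_scale (hnf a) (hnf b) hδ0
  · rw [hrow p, vp]
    simp only [ld_circ one_pos]
    simp
    ring
  · intro a hap haq
    simp only
    rw [hrow a, va a, hL.wind (mem_oth.2 ⟨hap, haq⟩), mul_zero]
  · intro a hap haq
    simp only
    rw [vp, va a, ← norm_La hdir hδ hd, ← card_oth hpq]
    exact hL.est1 (mem_oth.2 ⟨hap, haq⟩)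
  · intro a b hap haq hbp hbq
    simp only
    rw [va a, va b, ← card_oth hpq]
    exact hL.est2 (mem_oth.2 ⟨hap, haq⟩) (mem_oth.2 ⟨hbp, hbq⟩)

/-- the regulators are independent -/
theorem independent (hdir : D.Directions) (hsep : D.Separated σ) (hN : 3 ≤ N) :
    D.IndependentRegulators σ := by
  obtain ⟨δ, hδ, hl, hsep⟩ := hsep
  intro c hc hreg
  obtain ⟨hc1, hc2, hc3⟩ := hc
  have hc4 : ∀ p, ∑ q, c p q = 0 := by
    intro p
    have h1 := hc3 p
    rw [← neg_eq_zero, ← Finset.sum_neg_distrib] at h1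
    rw [← h1]
    exact Finset.sum_congr rfl fun q _ => hc1 q p
  apply Alg.eq_zero hN
  have hdiag : ∀ a, c a a = 0 := by
    intro a
    have := hc1 a a
    linarith
  refine Alg.main c hc1 hc3 (fun p q a => Real.log (‖σ (D.det3 p q a)‖ / δ)) ?_ ?_ (by positivity)
    (by positivity) ?_
  · intro p q a
    have e : D.det3 q a p = D.det3 p q a := by
      unfold det3
      ring
    simp only [e]
  · intro p q a
    by_cases h0 : Alg.dc c p q a = 0
    · rw [h0]
      simp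
    have hlog : ∀ x : ℝ, 5 ≤ x → 1 ≤ Real.log x := by
      intro x hx
      rw [Real.le_log_iff_exp_le (by linarith)]
      have := Real.exp_one_lt_d9
      linarith
    have hdist : p ≠ q ∧ q ≠ a ∧ a ≠ p := by
      refine ⟨?_, ?_, ?_⟩
      · rintro rfl
        apply h0
        unfold Alg.dc
        rw [hdiag, hc1 p a]
        ring
      · rintro rfl
        apply h0
        unfold Alg.dc
        rw [hdiag, hc1 p q]
        ring
      · rintro rfl
        apply h0
        unfold Alg.dc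
        rw [hdiag, hc1 a q]
        ring
    have h5 : 5 * δ ≤ ‖σ (D.det3 p q a)‖ := by
      by_cases d1 : D.det2 p q = 0
      · by_cases d2 : D.det2 q a = 0
        · by_cases d3 : D.det2 a p = 0
          · exfalso
            apply h0
            unfold Alg.dc
            rw [hc2 p q d1, hc2 q a d2, hc2 a p d3]
            ring
          · have h := hsep a p q d3 hdist.2.1 hdist.1.symm
            have e : D.det3 a p q = D.det3 p q a := by
              unfold det3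
              ring
            rwa [e] at h
        · have h := hsep q a p d2 hdist.1 hdist.2.2.symm
          have e : D.det3 q a p = D.det3 p q a := by
            unfold det3
            ring
          rwa [e] at h
      · exact hsep p q a d1 hdist.2.2 hdist.2.1.symm
    exact le_mul_of_one_le_left (sq_nonneg _) (hlog _ ((le_div_iff₀ hδ).2 h5))
  · intro p q hpq0
    have hd : D.det2 p q ≠ 0 := fun h => hpq0 (hc2 p q h)
    obtain ⟨E, w, T, hT, hE, hanti, hp, hA, he, hF⟩ := exists_loop hdir hδ hl hsep hN hd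
    refine ⟨2 * Real.pi * Real.log (‖σ D.lam‖ * δ ^ N), fun a => E p a, E, ?_, he, hF, ?_⟩
    · have h1 := Real.log_nonneg hl
      have := Real.pi_pos
      positivity
    · have h1 := hreg T hT
      simp only [hE] at h1
      have h3 : ∑ a, ∑ b, c a b * (E a b + w b - w a) = ∑ a, ∑ b, c a b * E a b := by
        have e1 : ∑ a, ∑ b, c a b * (E a b + w b - w a) =
            ∑ a, ∑ b, c a b * E a b + ∑ a, ∑ b, c a b * w b - ∑ a, ∑ b, c a b * w a := by
          rw [← Finset.sum_add_distrib, ← Finset.sum_sub_distrib]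
          refine Finset.sum_congr rfl fun a _ => ?_
          rw [← Finset.sum_add_distrib, ← Finset.sum_sub_distrib]
          refine Finset.sum_congr rfl fun b _ => ?_
          ring
        have e2 : ∑ a, ∑ b, c a b * w b = 0 := by
          rw [Finset.sum_comm]
          refine Finset.sum_eq_zero fun b _ => ?_
          rw [← Finset.sum_mul, hc3, zero_mul]
        have e3 : ∑ a, ∑ b, c a b * w a = 0 := by
          refine Finset.sum_eq_zero fun a _ => ?_
          rw [← Finset.sum_mul, hc4, zero_mul]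
        rw [e1, e2, e3, add_zero, sub_zero]
      rw [h3] at h1
      have h2 := Alg.identity (ne_of_det2 hd) c E hc1 hanti _ hp hA
      rw [h1, mul_zero] at h2
      exact h2.symm

end Dat

end Pool.Agent.W5h29.LA
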