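import Pool.Agent.W5h29.LA.Def
import Pool.Agent.TH826.MK.Variety
import Pool.Agent.Y797.HC.Unr
set_option autoImplicit false

/-!
The elements given by the circulations are unramified.
-/

namespace Pool.Agent.W5h29.LA

open Pool.Agent.TH826.MK (KQ symb unitPart Unramified symb_update_mul symb_eq_zero'
  mem_unitPart_of_pow val_one_of_sub_one val_le_one_of_integral)

open Pool.Agent.TH826.SX (symb_self symb_upd_inv)

open Pool.Agent.Y797.HC (OU)

open scoped WithZero

section sy

variable {L : Type*} [Field L]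

/-- the symbol of two elements -/
noncomputable def sy (a b : Lˣ) : KQ L 2 := symb ![a, b]

theorem upd0 (a b x : Lˣ) : Function.update ![a, b] 0 x = ![x, b] := by
  funext i
  fin_cases i <;> simp

theorem upd1 (a b x : Lˣ) : Function.update ![a, b] 1 x = ![a, x] := by
  funext i
  fin_cases i <;> simp

theorem sy_mul_left (a a' b : Lˣ) : sy (a * a') b = sy a b + sy a' b := by
  have h := symb_update_mul ![a, b] 0 a a'
  rw [upd0, upd0, upd0] at h
  exact h

theorem sy_mul_right (a b b' : Lˣ) : sy a (b * b') = sy a b + sy a b' := by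
  have h := symb_update_mul ![a, b] 1 b b'
  rw [upd1, upd1, upd1] at h
  exact h

theorem sy_inv_left (a b : Lˣ) : sy a⁻¹ b = -sy a b := by
  have h := symb_upd_inv ![a, b] 0 a
  rw [upd0, upd0] at h
  exact h

theorem sy_inv_right (a b : Lˣ) : sy a b⁻¹ = -sy a b := by
  have h := symb_upd_inv ![a, b] 1 b
  rw [upd1, upd1] at h
  exact h

theorem sy_self (a : Lˣ) : sy a a = 0 :=
  symb_self ![a, a] (i := 0) (j := 1) (by decide) rfl

theorem sy_swap (a b : Lˣ) : sy a b = -sy b a := by
  have h := sy_self (a * b)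
  rw [sy_mul_left, sy_mul_right, sy_mul_right, sy_self, sy_self, zero_add, add_zero] at h
  exact eq_neg_of_add_eq_zero_left h

theorem sy_pow_left (a b : Lˣ) (m : ℕ) : sy (a ^ m) b = (m : ℚ) • sy a b := by
  induction m with
  | zero =>
    rw [pow_zero, Nat.cast_zero, zero_smul]
    have h := sy_mul_left (1 : Lˣ) 1 b
    rw [mul_one] at h
    exact left_eq_add.1 h
  | succ m ih =>
    rw [pow_succ, sy_mul_left, ih, Nat.cast_succ, add_smul, one_smul]

theorem sy_tors_left {a : Lˣ} {m : ℕ} (hm : m ≠ 0) (h : a ^ m = 1) (b : Lˣ) : sy a b = 0 := by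
  have h1 := sy_pow_left a b m
  have h2 := sy_pow_left a b 0
  rw [pow_zero, Nat.cast_zero, zero_smul] at h2
  rw [h, h2] at h1
  exact (smul_eq_zero.1 h1.symm).resolve_left (Nat.cast_ne_zero.2 hm)

theorem sy_tors_right {b : Lˣ} {m : ℕ} (hm : m ≠ 0) (h : b ^ m = 1) (a : Lˣ) : sy a b = 0 := by
  rw [sy_swap, sy_tors_left hm h, neg_zero]

theorem sy_steinberg {a b : Lˣ} (h : (a : L) + (b : L) = 1) : sy a b = 0 :=
  symb_eq_zero' ![a, b] (i := 0) (j := 1) (by decide) h

variable {v : Valuation L ℤᵐ⁰}

theorem sy_mem_left {a : Lˣ} {m : ℕ} (hm : m ≠ 0) (h : OU v ((a : L) ^ m)) (b : Lˣ) :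
    sy a b ∈ unitPart v 2 := mem_unitPart_of_pow v 0 ![a, b] hm h

theorem sy_mem_right {b : Lˣ} {m : ℕ} (hm : m ≠ 0) (h : OU v ((b : L) ^ m)) (a : Lˣ) :
    sy a b ∈ unitPart v 2 := mem_unitPart_of_pow v 1 ![a, b] hm h

theorem sy_mem_unit {a b : Lˣ} (ha : v (a : L) = 1) (hb : v (b : L) = 1) :
    sy a b ∈ unitPart v 2 := by
  refine Submodule.subset_span ⟨![a, b], fun i => ?_, rfl⟩
  fin_cases i
  · exact ha
  · exact hb

/-- the three-term relation -/
theorem tri {p q a : Lˣ} {r s : L} (hr : r = 0 ∨ ∃ m : ℕ, m ≠ 0 ∧ r ^ m = 1)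
    (hs : s = 0 ∨ ∃ m : ℕ, m ≠ 0 ∧ s ^ m = 1) (h : (a : L) = r * p + s * q) :
    sy p q = sy p a - sy q a := by
  have unit_of : ∀ {r : L} {m : ℕ}, m ≠ 0 → r ^ m = 1 → ∃ r' : Lˣ, (r' : L) = r ∧ r' ^ m = 1 := by
    intro r m hm h
    have h0 : r ≠ 0 := by
      rintro rfl
      rw [zero_pow hm] at h
      exact zero_ne_one h
    exact ⟨Units.mk0 r h0, rfl, Units.ext (by simpa using h)⟩
  rcases hr with rfl | ⟨m, hm, hr⟩
  · rcases hs with rfl | ⟨n, hn, hs⟩
    · rw [zero_mul, zero_mul, add_zero] at h
      exact absurd h a.ne_zero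
    · obtain ⟨s', rfl, hs'⟩ := unit_of hn hs
      have e : a = s' * q := Units.ext (by rw [h]; simp)
      rw [e, sy_mul_right, sy_mul_right, sy_tors_right hn hs', sy_tors_right hn hs', sy_self]
      abel
  · obtain ⟨r', rfl, hr'⟩ := unit_of hm hr
    rcases hs with rfl | ⟨n, hn, hs⟩
    · have e : a = r' * p := Units.ext (by rw [h]; simp)
      rw [e, sy_mul_right, sy_mul_right, sy_tors_right hm hr', sy_tors_right hm hr', sy_self,
        sy_swap q p]
      abel
    · obtain ⟨s', rfl, hs'⟩ := unit_of hn hs
      have h1 : sy (r' * p * a⁻¹) (s' * q * a⁻¹) = 0 := by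
        refine sy_steinberg ?_
        have ha := a.ne_zero
        push_cast
        field_simp
        exact h.symm
      have h2 : sy (r' * p * a⁻¹) (s' * q * a⁻¹) = sy p q - sy p a - sy a q := by
        simp only [sy_mul_left, sy_mul_right, sy_inv_left, sy_inv_right, sy_tors_left hm hr',
          sy_tors_right hn hs', sy_self]
        abel
      rw [h1, sy_swap a q] at h2
      have h3 : sy p q - (sy p a - sy q a) = 0 := by
        rw [h2]
        abel
      exact sub_eq_zero.1 h3

end sy

section main

variable {L : Type*} [Field L] {v : Valuation L ℤᵐ⁰} {N : ℕ}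

theorem sum_mem {D : Dat L N} {c : Fin N → Fin N → ℚ}
    (hc1 : ∀ p q, c q p = -c p q) (hc2 : ∀ p q, D.det2 p q = 0 → c p q = 0)
    (hc3 : ∀ q, ∑ p, c p q = 0) (l : Fin N → Lˣ) (g : Fin N → KQ L 2)
    (h : ∀ p q, D.det2 p q ≠ 0 → sy (l p) (l q) - (g p - g q) ∈ unitPart v 2) :
    ∑ p, ∑ q, c p q • sy (l p) (l q) ∈ unitPart v 2 := by
  have h0 : ∑ p, ∑ q, c p q • (g p - g q) = 0 := by
    have e1 : ∀ p, ∑ q, c p q = 0 := by
      intro p
      have : ∑ q, c p q = ∑ q, -c q p := Finset.sum_congr rfl fun q _ => by rw [hc1]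
      rw [this, Finset.sum_neg_distrib, hc3, neg_zero]
    simp only [smul_sub, Finset.sum_sub_distrib]
    rw [Finset.sum_comm (f := fun p q => c p q • g q)]
    simp only [← Finset.sum_smul, e1, hc3, zero_smul, Finset.sum_const_zero, sub_zero]
  have h1 : ∑ p, ∑ q, c p q • sy (l p) (l q) =
      ∑ p, ∑ q, c p q • (sy (l p) (l q) - (g p - g q)) := by
    have h2 : ∀ p q, c p q • (sy (l p) (l q) - (g p - g q)) =
        c p q • sy (l p) (l q) - c p q • (g p - g q) := fun _ _ => smul_sub _ _ _
    simp only [h2]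
    rw [Finset.sum_congr rfl fun p _ => Finset.sum_sub_distrib _ _, Finset.sum_sub_distrib, h0,
      sub_zero]
  rw [h1]
  refine Submodule.sum_mem _ fun p _ => Submodule.sum_mem _ fun q _ => ?_
  by_cases hd : D.det2 p q = 0
  · rw [hc2 p q hd, zero_smul]
    exact Submodule.zero_mem _
  · exact Submodule.smul_mem _ _ (h p q hd)

theorem val_one_of_pow {d : L} {m : ℕ} (hm : m ≠ 0) (h : d ^ m = 1) : v d = 1 := by
  have h1 : v d ^ m = 1 := by rw [← map_pow, h, map_one]
  rcases lt_trichotomy (v d) 1 with h2 | h2 | h2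
  · exact absurd h1 (pow_lt_one₀ zero_le h2 hm).ne
  · exact h2
  · exact absurd h1 (one_lt_pow₀ h2 hm).ne'

theorem tors_ratio {D : Dat L N} (hdir : D.Directions) (p q a b : Fin N) (hd : D.det2 p q ≠ 0) :
    D.det2 a b / D.det2 p q = 0 ∨ ∃ m : ℕ, m ≠ 0 ∧ (D.det2 a b / D.det2 p q) ^ m = 1 := by
  rcases hdir.1 a b with h | ⟨m, hm, h⟩
  · left
    rw [h, zero_div]
  · right
    rcases hdir.1 p q with h' | ⟨n, hn, h'⟩
    · exact absurd h' hd
    · refine ⟨m * n, mul_ne_zero hm hn, ?_⟩
      rw [div_pow, pow_mul, h, one_pow, mul_comm m n, pow_mul, h', one_pow, div_one]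

/-- the linear part of `L_p` at the point `(x, y)` -/
def wl (D : Dat L N) (x y : L) (p : Fin N) : L := D.al p * x + D.be p * y

theorem wl_comb (D : Dat L N) (x y : L) (p q a : Fin N) (hd : D.det2 p q ≠ 0) :
    wl D x y a = D.det2 a q / D.det2 p q * wl D x y p + D.det2 p a / D.det2 p q * wl D x y q := by
  field_simp
  unfold wl Dat.det2
  ring

theorem val_det {D : Dat L N} (hdir : D.Directions) {p q : Fin N} (hd : D.det2 p q ≠ 0) :
    v (D.det2 p q) = 1 := by
  rcases hdir.1 p q with h | ⟨m, hm, h⟩
  · exact absurd h hd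
  · exact val_one_of_pow hm h

theorem mx_le {D : Dat L N} (hdir : D.Directions)
    (hv : ∀ p, v (D.al p) ≤ 1 ∧ v (D.be p) ≤ 1 ∧ v (D.ga p) ≤ 1) (x y : L) {p q : Fin N}
    (hd : D.det2 p q ≠ 0) :
    max (v x) (v y) ≤ max (v (wl D x y p)) (v (wl D x y q)) := by
  have h1 := val_det (v := v) hdir hd
  have key : ∀ (b b' : L), v b ≤ 1 → v b' ≤ 1 →
      v (b * wl D x y p - b' * wl D x y q) ≤ max (v (wl D x y p)) (v (wl D x y q)) := by
    intro b b' hb hb'
    refine (v.map_sub _ _).trans (max_le_max ?_ ?_)
    · rw [map_mul]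
      exact mul_le_of_le_one_left zero_le hb
    · rw [map_mul]
      exact mul_le_of_le_one_left zero_le hb'
  have hx : v x = v (D.be q * wl D x y p - D.be p * wl D x y q) := by
    have e : D.be q * wl D x y p - D.be p * wl D x y q = x * D.det2 p q := by
      unfold wl Dat.det2
      ring
    rw [e, map_mul, h1, mul_one]
  have hy : v y = v (D.al p * wl D x y q - D.al q * wl D x y p) := by
    have e : D.al p * wl D x y q - D.al q * wl D x y p = y * D.det2 p q := by
      unfold wl Dat.det2
      ring
    rw [e, map_mul, h1, mul_one]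
  refine max_le ?_ ?_
  · rw [hx]
    exact key _ _ (hv q).2.1 (hv p).2.1
  · rw [hy]
    have e : D.al p * wl D x y q - D.al q * wl D x y p =
        -(D.al q * wl D x y p - D.al p * wl D x y q) := by ring
    rw [e, Valuation.map_neg]
    exact key _ _ (hv q).1 (hv p).1

theorem exists_g {D : Dat L N} (hdir : D.Directions)
    (hv : ∀ p, v (D.al p) ≤ 1 ∧ v (D.be p) ≤ 1 ∧ v (D.ga p) ≤ 1) (hlam : v D.lam ≤ 1) (x y : L)
    (l : Fin N → Lˣ) (hl : ∀ p, (l p : L) = wl D x y p + D.ga p)
    (hprod : D.lam * ∏ p, (l p : L) = 1) :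
    ∃ g : Fin N → KQ L 2, ∀ p q, D.det2 p q ≠ 0 →
      sy (l p) (l q) - (g p - g q) ∈ unitPart v 2 := by
  classical
  have hwle : ∀ p, v (wl D x y p) ≤ max (v x) (v y) := by
    intro p
    refine (v.map_add _ _).trans (max_le_max ?_ ?_)
    · rw [map_mul]
      exact mul_le_of_le_one_left zero_le (hv p).1
    · rw [map_mul]
      exact mul_le_of_le_one_left zero_le (hv p).2.1
  rcases le_or_gt (max (v x) (v y)) 1 with hM | hM
  · -- the integral points
    have hle : ∀ p, v (l p : L) ≤ 1 := fun p => by
      rw [hl]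
      exact (v.map_add _ _).trans (max_le ((hwle p).trans hM) (hv p).2.2)
    have hone : ∀ p, v (l p : L) = 1 := by
      intro p
      refine le_antisymm (hle p) ?_
      have h1 := congrArg v hprod
      rw [map_one, map_mul, map_prod, ← Finset.mul_prod_erase _ _ (Finset.mem_univ p)] at h1
      rw [← h1]
      calc v D.lam * (v (l p : L) * ∏ q ∈ Finset.univ.erase p, v (l q : L))
          ≤ 1 * (v (l p : L) * 1) := by
            refine mul_le_mul' hlam (mul_le_mul' le_rfl ?_)
            exact Finset.prod_le_one' fun q _ => hle q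
        _ = v (l p : L) := by rw [one_mul, mul_one]
    refine ⟨fun _ => 0, fun p q _ => ?_⟩
    rw [sub_zero, sub_zero]
    exact sy_mem_unit (hone p) (hone q)
  · have hga : ∀ p, v (D.ga p) < max (v x) (v y) := fun p => ((hv p).2.2).trans_lt hM
    have hM0 : 0 < max (v x) (v y) := zero_lt_one.trans hM
    by_cases hA : ∀ p, v (wl D x y p) = max (v x) (v y)
    · -- the points at infinity in a general direction
      have hw0 : ∀ p, wl D x y p ≠ 0 := by
        intro p h
        have h1 := hA p
        rw [h, map_zero] at h1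
        exact absurd h1 hM0.ne
      set W : Fin N → Lˣ := fun p => Units.mk0 _ (hw0 p) with hW
      have hOU : ∀ p, OU v (((l p) * (W p)⁻¹ : Lˣ) : L) := by
        intro p
        unfold OU
        have e : (((l p) * (W p)⁻¹ : Lˣ) : L) - 1 = D.ga p * (wl D x y p)⁻¹ := by
          rw [Units.val_mul, Units.val_inv_eq_inv_val, hW, Units.val_mk0, hl]
          have := hw0 p
          field_simp
          ring
        rw [e, map_mul, map_inv₀, hA p, ← div_eq_mul_inv, div_lt_one₀ hM0]
        exact hga p
      rcases isEmpty_or_nonempty (Fin N) with hN | ⟨⟨a⟩⟩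
      · exact ⟨fun _ => 0, fun p => isEmptyElim p⟩
      refine ⟨fun p => sy (W p) (W a), fun p q hd => ?_⟩
      have h1 : sy (W p) (W q) = sy (W p) (W a) - sy (W q) (W a) :=
        tri (tors_ratio hdir p q a q hd) (tors_ratio hdir p q p a hd) (wl_comb D x y p q a hd)
      rw [← h1]
      have e1 : l p = W p * (l p * (W p)⁻¹) := by
        rw [mul_comm (l p), mul_inv_cancel_left]
      have e2 : l q = W q * (l q * (W q)⁻¹) := by
        rw [mul_comm (l q), mul_inv_cancel_left]
      have h2 : sy (l p) (l q) - sy (W p) (W q) = sy (W p) (l q * (W q)⁻¹) +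
          sy (l p * (W p)⁻¹) (l q) := by
        conv_lhs => rw [e1, sy_mul_left]
        conv_lhs =>
          enter [1, 1]
          rw [e2, sy_mul_right]
        abel
      rw [h2]
      refine Submodule.add_mem _ (sy_mem_right one_ne_zero ?_ _) (sy_mem_left one_ne_zero ?_ _)
      · rw [pow_one]; exact hOU q
      · rw [pow_one]; exact hOU p
    · -- the points at infinity in the direction of some of the lines
      push Not at hA
      obtain ⟨q0, hq0⟩ := hA
      have hq0' : v (wl D x y q0) < max (v x) (v y) := lt_of_le_of_ne (hwle q0) hq0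
      have hbig : ∀ {p q : Fin N}, D.det2 p q ≠ 0 → v (wl D x y q) < max (v x) (v y) →
          v (wl D x y p) = max (v x) (v y) := by
        intro p q hd hq
        refine le_antisymm (hwle p) ?_
        rcases le_max_iff.1 (mx_le (v := v) hdir hv x y hd) with h | h
        · exact h
        · exact absurd h (not_le.2 hq)
      have hsymm : ∀ {p q : Fin N}, D.det2 p q ≠ 0 → D.det2 q p ≠ 0 := by
        intro p q hd h
        apply hd
        have : D.det2 p q = -D.det2 q p := by unfold Dat.det2; ring
        rw [this, h, neg_zero]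
      obtain ⟨p0, hp0⟩ := hdir.2 q0
      have hp0' : D.det2 p0 q0 ≠ 0 := hsymm hp0
      have hvp0 := hbig hp0' hq0'
      have hw0 : wl D x y p0 ≠ 0 := by
        intro h
        rw [h, map_zero] at hvp0
        exact absurd hvp0 hM0.ne
      set W : Lˣ := Units.mk0 _ hw0 with hW
      -- the lines in other directions
      have hOU : ∀ p, v (wl D x y p) = max (v x) (v y) →
          ∃ m : ℕ, m ≠ 0 ∧ OU v (((l p * W⁻¹ : Lˣ) : L) ^ m) := by
        intro p hp
        have hc := wl_comb D x y p0 q0 p hp0'
        rcases tors_ratio hdir p0 q0 p q0 hp0' with hr | ⟨m, hm, hr⟩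
        · exfalso
          rw [hr, zero_mul, zero_add] at hc
          have h1 : v (wl D x y p) ≤ v (wl D x y q0) := by
            rw [hc, map_mul]
            refine mul_le_of_le_one_left zero_le ?_
            rcases tors_ratio hdir p0 q0 p0 p hp0' with hs | ⟨n, hn, hs⟩
            · rw [hs, map_zero]
              exact zero_le
            · exact (val_one_of_pow hn hs).le
          rw [hp] at h1
          exact absurd hq0' (not_lt.2 h1)
        · set r := D.det2 p q0 / D.det2 p0 q0 with hrd
          set s := D.det2 p0 p / D.det2 p0 q0 with hsd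
          have hr0 : r ≠ 0 := by
            intro h
            rw [h, zero_pow hm] at hr
            exact zero_ne_one hr
          have hvr : v r = 1 := val_one_of_pow hm hr
          have hvs : v s ≤ 1 := by
            rcases tors_ratio hdir p0 q0 p0 p hp0' with hs | ⟨n, hn, hs⟩
            · rw [hsd, hs, map_zero]
              exact zero_le
            · exact (val_one_of_pow hn hs).le
          have h1 : OU v (((l p * W⁻¹ : Lˣ) : L) * r⁻¹) := by
            unfold OU
            have e : ((l p * W⁻¹ : Lˣ) : L) * r⁻¹ - 1 =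
                (s * wl D x y q0 + D.ga p) * (wl D x y p0)⁻¹ * r⁻¹ := by
              rw [Units.val_mul, Units.val_inv_eq_inv_val, hW, Units.val_mk0, hl, hc]
              field_simp
              ring
            rw [e, map_mul, map_mul, map_inv₀, map_inv₀, hvr, inv_one, mul_one, hvp0,
              ← div_eq_mul_inv, div_lt_one₀ hM0]
            refine (v.map_add _ _).trans_lt (max_lt ?_ (hga p))
            rw [map_mul]
            exact (mul_le_of_le_one_left zero_le hvs).trans_lt hq0'
          refine ⟨m, hm, ?_⟩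
          have h2 := h1.pow m
          rw [mul_pow, inv_pow, hr, inv_one, mul_one] at h2
          exact h2
      refine ⟨fun p => if v (wl D x y p) < max (v x) (v y) then sy (l p) W else 0,
        fun p q hd => ?_⟩
      have hd' := hsymm hd
      by_cases hp : v (wl D x y p) < max (v x) (v y)
      · have hq := hbig hd' hp
        have hq' : ¬ v (wl D x y q) < max (v x) (v y) := not_lt.2 hq.ge
        simp only [if_pos hp, if_neg hq', sub_zero]
        obtain ⟨m, hm, h1⟩ := hOU q hq
        have e2 : l q = W * (l q * W⁻¹) := by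
          rw [mul_comm (l q), mul_inv_cancel_left]
        have h2 : sy (l p) (l q) - sy (l p) W = sy (l p) (l q * W⁻¹) := by
          conv_lhs =>
            enter [1]
            rw [e2, sy_mul_right]
          abel
        rw [h2]
        exact sy_mem_right hm h1 _
      · have hp1 : v (wl D x y p) = max (v x) (v y) := le_antisymm (hwle p) (not_lt.1 hp)
        obtain ⟨m, hm, h1⟩ := hOU p hp1
        have e1 : l p = W * (l p * W⁻¹) := by
          rw [mul_comm (l p), mul_inv_cancel_left]
        simp only [if_neg hp, zero_sub]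
        by_cases hq : v (wl D x y q) < max (v x) (v y)
        · simp only [if_pos hq]
          have h2 : sy (l p) (l q) - -sy (l q) W = sy (l p * W⁻¹) (l q) := by
            rw [sy_swap (l q) W]
            conv_lhs =>
              enter [1]
              rw [e1, sy_mul_left]
            abel
          rw [h2]
          exact sy_mem_left hm h1 _
        · have hq1 : v (wl D x y q) = max (v x) (v y) := le_antisymm (hwle q) (not_lt.1 hq)
          obtain ⟨n, hn, h3⟩ := hOU q hq1
          have e2 : l q = W * (l q * W⁻¹) := by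
            rw [mul_comm (l q), mul_inv_cancel_left]
          simp only [if_neg hq, neg_zero, sub_zero]
          have h2 : sy (l p) (l q) = sy W (l q * W⁻¹) + sy (l p * W⁻¹) (l q) := by
            conv_lhs => rw [e1, sy_mul_left]
            conv_lhs =>
              enter [1]
              rw [e2, sy_mul_right, sy_self, zero_add]
          rw [h2]
          exact Submodule.add_mem _ (sy_mem_right hn h3 _) (sy_mem_left hm h1 _)

end main

section final

variable {K : Type*} [Field K] {L : Type*} [Field L] {N : ℕ}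

/-- the image of the data -/
def Dat.map (D : Dat K N) (f : K →+* L) : Dat L N :=
  ⟨fun p => f (D.al p), fun p => f (D.be p), fun p => f (D.ga p), f D.lam⟩

theorem Dat.det2_map (D : Dat K N) (f : K →+* L) (p q : Fin N) :
    (D.map f).det2 p q = f (D.det2 p q) := by
  unfold Dat.det2 Dat.map
  simp

/-- The elements given by the circulations are unramified. -/
theorem unramified.{u, w} {K : Type u} [Field K] {N : ℕ} {D : Dat K N} (hI : D.Integral)
    (hdir : D.Directions) : Dat.UnramifiedSymbols.{u, w} D := by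
  rintro c ⟨hc1, hc2, hc3⟩ L _ f
  unfold Dat.S
  rw [map_sum]
  simp only [map_sum, map_smul]
  unfold Unramified
  simp only [Submodule.mem_iInf]
  intro v _
  set k : K →+* L := f.comp (D.fn.comp MvPolynomial.C) with hk
  set x : L := f (D.fn (MvPolynomial.X 0)) with hx
  set y : L := f (D.fn (MvPolynomial.X 1)) with hy
  set l : Fin N → Lˣ := fun p => Units.map (f : D.CRing →* L) (D.u p) with hl
  have hsy : ∀ p q, KQ.map 2 f (symb ![D.u p, D.u q]) = sy (l p) (l q) := by
    intro p q
    rw [KQ.map_symb]
    unfold sy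
    congr 1
    funext i
    fin_cases i <;> rfl
  simp only [hsy]
  have hlv : ∀ p, (l p : L) = wl (D.map k) x y p + (D.map k).ga p := by
    intro p
    have h1 : (l p : L) = f (D.fn (D.line p)) := rfl
    rw [h1]
    unfold Dat.line wl
    simp only [map_add, map_mul]
    rfl
  have hprod : (D.map k).lam * ∏ p, (l p : L) = 1 := by
    have h1 := congrArg f D.prod_eq
    rw [map_mul, map_prod, map_one] at h1
    exact h1
  have hval : ∀ z : K, IsIntegral ℤ z → v (k z) ≤ 1 := fun z hz =>
    val_le_one_of_integral v (map_isIntegral_int _ hz)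
  have hdir' : (D.map k).Directions := by
    refine ⟨fun p q => ?_, fun p => ?_⟩
    · rw [Dat.det2_map]
      rcases hdir.1 p q with h | ⟨m, hm, h⟩
      · left; rw [h, map_zero]
      · right
        exact ⟨m, hm, by rw [← map_pow, h, map_one]⟩
    · obtain ⟨q, hq⟩ := hdir.2 p
      refine ⟨q, ?_⟩
      rw [Dat.det2_map]
      exact (map_ne_zero k).2 hq
  obtain ⟨g, hg⟩ := exists_g (v := v) hdir'
    (fun p => ⟨hval _ (hI.1 p).1, hval _ (hI.1 p).2.1, hval _ (hI.1 p).2.2⟩) (hval _ hI.2.1) x y l
    hlv hprod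
  refine sum_mem (D := D.map k) hc1 (fun p q h => ?_) hc3 l g hg
  rw [Dat.det2_map, map_eq_zero] at h
  exact hc2 p q h

end final

end Pool.Agent.W5h29.LA
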