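import Pool.Agent.TH826.MK.Torus
set_option autoImplicit false

/-!
Definitions: the plane curves `λ ∏_p L_p = 1`, `L_p = α_p x + β_p y + γ_p`, and the combinations of the
symbols `{L_p, L_q}` on them given by the circulations.
-/

namespace Pool.Agent.W5h29.LA

open Pool.Agent.TH826.MK (KQ symb Torus Unramified)

/-- The coefficients of the linear polynomials `L_p = α_p x + β_p y + γ_p`, `p = 1, ..., N`, and the
number `λ`. -/
structure Dat (K : Type*) [Field K] (N : ℕ) where
  /-- the numbers `α_p` -/
  al : Fin N → K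
  /-- the numbers `β_p` -/
  be : Fin N → K
  /-- the numbers `γ_p` -/
  ga : Fin N → K
  /-- the number `λ` -/
  lam : K

namespace Dat

variable {K : Type*} [Field K] {N : ℕ} (D : Dat K N)

/-- The determinant `α_p β_q - α_q β_p`; it is zero if and only if the lines `L_p = 0` and `L_q = 0` are
parallel or equal. -/
def det2 (p q : Fin N) : K := D.al p * D.be q - D.al q * D.be p

/-- The determinant of the matrix with the rows `(α, β, γ)` of `L_p`, `L_q`, `L_a`. -/
def det3 (p q a : Fin N) : K :=
  D.ga p * D.det2 q a + D.ga q * D.det2 a p + D.ga a * D.det2 p q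

/-- The coefficients are algebraic integers, and `λ ≠ 0`. -/
def Integral : Prop :=
  (∀ p, IsIntegral ℤ (D.al p) ∧ IsIntegral ℤ (D.be p) ∧ IsIntegral ℤ (D.ga p)) ∧
    IsIntegral ℤ D.lam ∧ D.lam ≠ 0

/-- All determinants `α_p β_q - α_q β_p` are zero or roots of unity, and to every `p` there is a `q` for
which this determinant is not zero. -/
def Directions : Prop :=
  (∀ p q, D.det2 p q = 0 ∨ ∃ m : ℕ, m ≠ 0 ∧ D.det2 p q ^ m = 1) ∧ ∀ p, ∃ q, D.det2 p q ≠ 0

/-- There is a real number `δ > 0` with `|σ λ| δ ^ N ≥ 1`, such that the determinants of the triples of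
different lines which are not all parallel have absolute value at least `5 δ`. -/
def Separated (σ : K →+* ℂ) : Prop :=
  ∃ δ : ℝ, 0 < δ ∧ 1 ≤ ‖σ D.lam‖ * δ ^ N ∧
    ∀ p q a, D.det2 p q ≠ 0 → a ≠ p → a ≠ q → 5 * δ ≤ ‖σ (D.det3 p q a)‖

/-- The polynomial `L_p` in the variables `x = X 0` and `y = X 1`. -/
noncomputable def line (p : Fin N) : MvPolynomial (Fin 2) K :=
  MvPolynomial.C (D.al p) * MvPolynomial.X 0 + MvPolynomial.C (D.be p) * MvPolynomial.X 1 +
    MvPolynomial.C (D.ga p)

/-- The polynomial `λ ∏_p L_p - 1`. -/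
noncomputable def eqn : MvPolynomial (Fin 2) K := MvPolynomial.C D.lam * ∏ p, D.line p - 1

/-- The coordinate ring of the affine plane curve `λ ∏_p L_p = 1`. -/
def CRing : Type _ := MvPolynomial (Fin 2) K ⧸ Ideal.span {D.eqn}

noncomputable instance : CommRing D.CRing :=
  show CommRing (MvPolynomial (Fin 2) K ⧸ Ideal.span {D.eqn}) from inferInstance

/-- The polynomials as functions on the curve. -/
noncomputable def fn : MvPolynomial (Fin 2) K →+* D.CRing := Ideal.Quotient.mk (Ideal.span {D.eqn})

/-- The constants. -/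
noncomputable def cst (y : K) : D.CRing := D.fn (MvPolynomial.C y)

theorem fn_eqn : D.fn D.eqn = 0 :=
  Ideal.Quotient.eq_zero_iff_mem.2 (Ideal.mem_span_singleton_self _)

theorem prod_eq : D.cst D.lam * ∏ p, D.fn (D.line p) = 1 := by
  have h := D.fn_eqn
  unfold eqn at h
  rw [map_sub, map_mul, map_prod, map_one, sub_eq_zero] at h
  exact h

theorem isUnit_line (p : Fin N) : IsUnit (D.fn (D.line p)) := by
  have h : IsUnit (D.cst D.lam * ∏ p, D.fn (D.line p)) := by
    rw [D.prod_eq]
    exact isUnit_one
  exact isUnit_of_dvd_unit ((Finset.dvd_prod_of_mem _ (Finset.mem_univ p)).mul_left _) h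

/-- The unit `L_p` of the coordinate ring. -/
noncomputable def u (p : Fin N) : D.CRingˣ := (D.isUnit_line p).unit

theorem coe_u (p : Fin N) : (D.u p : D.CRing) = D.fn (D.line p) := rfl

/-- The circulations with values in `F`: the antisymmetric matrices `c` with `c p q = 0` if `L_p = 0` and
`L_q = 0` are parallel, all whose columns have sum zero. -/
def circ (F : Type*) [Field F] : Submodule F (Fin N → Fin N → F) where
  carrier := {c | (∀ p q, c q p = -c p q) ∧ (∀ p q, D.det2 p q = 0 → c p q = 0) ∧
    ∀ q, ∑ p, c p q = 0}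
  add_mem' := by
    rintro c c' ⟨h1, h2, h3⟩ ⟨h1', h2', h3'⟩
    refine ⟨fun p q => ?_, fun p q h => ?_, fun q => ?_⟩
    · simp only [Pi.add_apply, h1 p q, h1' p q]
      ring
    · simp only [Pi.add_apply, h2 p q h, h2' p q h, add_zero]
    · simp only [Pi.add_apply, Finset.sum_add_distrib, h3 q, h3' q, add_zero]
  zero_mem' := by
    refine ⟨fun p q => ?_, fun p q _ => rfl, fun q => ?_⟩
    · simp
    · simp
  smul_mem' := by
    rintro x c ⟨h1, h2, h3⟩
    refine ⟨fun p q => ?_, fun p q h => ?_, fun q => ?_⟩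
    · simp only [Pi.smul_apply, h1 p q, smul_eq_mul]
      ring
    · simp only [Pi.smul_apply, h2 p q h, smul_zero]
    · simp only [Pi.smul_apply, ← Finset.smul_sum, h3 q, smul_zero]

/-- The number of the pairs `p < q` for which `L_p = 0` and `L_q = 0` are not parallel. -/
noncomputable def edges : ℕ :=
  {e : Fin N × Fin N | e.1 < e.2 ∧ D.det2 e.1 e.2 ≠ 0}.ncard

/-- The element `∑_{p,q} c_{p,q} {L_p, L_q}` of `K_2` of the coordinate ring. -/
noncomputable def S (c : Fin N → Fin N → ℚ) : KQ D.CRing 2 :=
  ∑ p, ∑ q, c p q • symb ![D.u p, D.u q]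

/-- The elements given by the rational circulations are unramified at all discrete valuations of all
fields with a homomorphism from the coordinate ring, for example of the function field. -/
def UnramifiedSymbols : Prop :=
  ∀ c ∈ D.circ ℚ, ∀ (L : Type*) [Field L] (f : D.CRing →+* L),
    KQ.map 2 f (D.S c) ∈ Unramified L 2

/-- The affine curve is smooth: at all complex points over `σ` one of the partial derivatives does not
vanish. -/
def Smooth (σ : K →+* ℂ) : Prop :=
  ∀ z : Fin 2 → ℂ, MvPolynomial.eval₂Hom σ z D.eqn = 0 →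
    ∃ i, MvPolynomial.eval₂Hom σ z (MvPolynomial.pderiv i D.eqn) ≠ 0

/-- The regulators are independent: no nonzero real circulation `c` has the property that
`∑_{p,q} c_{p,q} reg {L_p, L_q}` vanishes on all loops in the complex points over `σ` of the curve. -/
def IndependentRegulators (σ : K →+* ℂ) : Prop :=
  ∀ c ∈ D.circ ℝ, (∀ T : Torus D.CRing 1, (∀ θ y, T.e θ (D.cst y) = σ y) →
    ∑ p, ∑ q, c p q * T.reg (symb ![D.u p, D.u q]) = 0) → c = 0

end Dat

end Pool.Agent.W5h29.LA
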