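import Pool.Agent.W5h29.LA.Def
set_option autoImplicit false

/-!
The polynomial `λ ∏_p L_p - 1` is irreducible.
-/

namespace Pool.Agent.W5h29.LA

open MvPolynomial

namespace Dat

variable {K : Type*} [Field K] {N : ℕ} (D : Dat K N)

/-- three lines which are not all parallel have no common point, and parallel lines are different -/
def Generic : Prop := ∀ p q a, D.det2 p q ≠ 0 → a ≠ p → a ≠ q → D.det3 p q a ≠ 0

theorem Separated.generic {D : Dat K N} {σ : K →+* ℂ} (h : D.Separated σ) : D.Generic := by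
  intro p q a hd h1 h2 h3
  obtain ⟨δ, hδ, -, h⟩ := h
  have h4 := h p q a hd h1 h2
  rw [h3, map_zero, norm_zero] at h4
  linarith

theorem det2_symm (p q : Fin N) : D.det2 p q = -D.det2 q p := by
  unfold det2
  ring

variable {D}

theorem det2_ne_symm {p q : Fin N} (h : D.det2 p q ≠ 0) : D.det2 q p ≠ 0 := by
  rw [D.det2_symm, neg_ne_zero] at h
  exact h

/-- parallelism is transitive -/
theorem par_trans (hdir : ∀ p, ∃ q, D.det2 p q ≠ 0) {p q r : Fin N} (h1 : D.det2 p r ≠ 0)
    (h2 : D.det2 p q = 0) : D.det2 q r ≠ 0 := by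
  intro h3
  obtain ⟨t, ht⟩ := hdir q
  apply ht
  have e1 : D.al q * D.det2 p r = 0 := by
    have : D.al q * D.det2 p r = D.al p * D.det2 q r + D.al r * D.det2 p q := by
      unfold det2
      ring
    rw [this, h2, h3]
    ring
  have e2 : D.be q * D.det2 p r = 0 := by
    have : D.be q * D.det2 p r = D.be p * D.det2 q r + D.be r * D.det2 p q := by
      unfold det2
      ring
    rw [this, h2, h3]
    ring
  have e3 := (mul_eq_zero.1 e1).resolve_right h1
  have e4 := (mul_eq_zero.1 e2).resolve_right h1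
  unfold det2
  rw [e3, e4]
  ring

variable (D)

theorem map_line {R F : Type*} [CommRing R] [FunLike F (MvPolynomial (Fin 2) K) R]
    [RingHomClass F (MvPolynomial (Fin 2) K) R] (m : F) (p : Fin N) :
    m (D.line p) = m (C (D.al p)) * m (X 0) + m (C (D.be p)) * m (X 1) + m (C (D.ga p)) := by
  unfold line
  simp only [map_add, map_mul]

/-- the restriction to the line `L_p = 0` with the coordinate `L_q` -/
noncomputable def res (p q : Fin N) : MvPolynomial (Fin 2) K →ₐ[K] Polynomial K :=
  aeval ![Polynomial.C (D.det2 p q)⁻¹ * (Polynomial.C (D.be q) * (-Polynomial.C (D.ga p)) -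
      Polynomial.C (D.be p) * (Polynomial.X - Polynomial.C (D.ga q))),
    Polynomial.C (D.det2 p q)⁻¹ * (Polynomial.C (D.al p) * (Polynomial.X - Polynomial.C (D.ga q)) -
      Polynomial.C (D.al q) * (-Polynomial.C (D.ga p)))]

theorem res_line {p q : Fin N} (hd : D.det2 p q ≠ 0) (a : Fin N) :
    D.res p q (D.line a) = Polynomial.C (D.det3 p q a / D.det2 p q) +
      Polynomial.C (D.det2 p a / D.det2 p q) * Polynomial.X := by
  have h1 : Polynomial.C (D.det2 p q)⁻¹ * Polynomial.C (D.det2 p q) = (1 : Polynomial K) := by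
    rw [← Polynomial.C_mul, inv_mul_cancel₀ hd, Polynomial.C_1]
  unfold res line
  simp only [map_add, map_mul, aeval_X, algHom_C, Matrix.cons_val_zero, Matrix.cons_val_one,
    Polynomial.algebraMap_eq]
  rw [div_eq_mul_inv, div_eq_mul_inv, Polynomial.C_mul, Polynomial.C_mul]
  unfold det3
  have e : ∀ p q, Polynomial.C (D.det2 p q) = Polynomial.C (D.al p) * Polynomial.C (D.be q) -
      Polynomial.C (D.al q) * Polynomial.C (D.be p) := by
    intro p q
    unfold det2
    simp only [Polynomial.C_sub, Polynomial.C_mul]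
  rw [e] at h1
  simp only [Polynomial.C_add, Polynomial.C_mul, e]
  linear_combination (-Polynomial.C (D.ga a)) * h1

/-- the kernel of the restriction -/
theorem dvd_of_res {p q : Fin N} (hd : D.det2 p q ≠ 0) {A : MvPolynomial (Fin 2) K}
    (h : D.res p q A = 0) : D.line p ∣ A := by
  let Q := MvPolynomial (Fin 2) K ⧸ Ideal.span {D.line p}
  let m : MvPolynomial (Fin 2) K →ₐ[K] Q := Ideal.Quotient.mkₐ K _
  let ψ : Polynomial K →ₐ[K] Q := Polynomial.aeval (m (D.line q))
  have hm : m (D.line p) = 0 := Ideal.Quotient.eq_zero_iff_mem.2 (Ideal.mem_span_singleton_self _)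
  have hC : ∀ c : K, ψ (Polynomial.C c) = m (C c) := by
    intro c
    rw [Polynomial.aeval_C]
    exact (m.commutes c).symm
  have hX : ψ Polynomial.X = m (D.line q) := Polynomial.aeval_X _
  have hdd : m (C (D.det2 p q)⁻¹) * m (C (D.det2 p q)) = 1 := by
    rw [← map_mul, ← C_mul, inv_mul_cancel₀ hd, C_1, map_one]
  have e2 : m (C (D.det2 p q)) = m (C (D.al p)) * m (C (D.be q)) -
      m (C (D.al q)) * m (C (D.be p)) := by
    unfold det2
    simp only [C_sub, C_mul, map_sub, map_mul]
  have hp' : m (C (D.al p)) * m (X 0) + m (C (D.be p)) * m (X 1) + m (C (D.ga p)) = 0 := by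
    rw [← hm, map_line]
  have hq' : m (D.line q) = m (C (D.al q)) * m (X 0) + m (C (D.be q)) * m (X 1) +
      m (C (D.ga q)) := map_line _ _ _
  have hcomp : ψ.comp (D.res p q) = m := by
    apply MvPolynomial.algHom_ext
    intro i
    unfold res
    fin_cases i
    · simp only [AlgHom.comp_apply, aeval_X, Fin.zero_eta, Matrix.cons_val_zero, map_mul, map_sub,
        map_neg, hC, hX, hq']
      rw [e2] at hdd
      linear_combination (-(m (C (D.det2 p q)⁻¹)) * m (C (D.be q))) * hp' + m (X 0) * hdd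
    · simp only [AlgHom.comp_apply, aeval_X, Fin.mk_one, Matrix.cons_val_one, Matrix.cons_val_fin_one, map_mul, map_sub,
        map_neg, hC, hX, hq']
      rw [e2] at hdd
      linear_combination (m (C (D.det2 p q)⁻¹) * m (C (D.al q))) * hp' + m (X 1) * hdd
  have h1 : m A = 0 := by
    rw [← hcomp, AlgHom.comp_apply, h, map_zero]
  exact Ideal.mem_span_singleton.1 (Ideal.Quotient.eq_zero_iff_mem.1 h1)

variable {D}

theorem det2_self (p : Fin N) : D.det2 p p = 0 := by
  unfold det2
  ring

theorem res_self {p q : Fin N} (hd : D.det2 p q ≠ 0) : D.res p q (D.line p) = 0 := by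
  rw [D.res_line hd]
  have h1 : D.det3 p q p = 0 := by
    unfold det3 det2
    ring
  rw [h1, det2_self, zero_div, Polynomial.C_0, zero_mul, add_zero]

theorem res_ne_zero (hg : D.Generic) {p q a : Fin N} (hd : D.det2 p q ≠ 0) (ha : a ≠ p) :
    D.res p q (D.line a) ≠ 0 := by
  rw [D.res_line hd]
  intro h
  by_cases hq : a = q
  · have h1 := congrArg (fun P => Polynomial.coeff P 1) h
    simp only [Polynomial.coeff_add, Polynomial.coeff_C_succ, Polynomial.coeff_C_mul,
      Polynomial.coeff_X_one, Polynomial.coeff_zero, zero_add, mul_one] at h1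
    rw [hq, div_self hd] at h1
    exact one_ne_zero h1
  · have h1 := congrArg (fun P => Polynomial.coeff P 0) h
    simp only [Polynomial.coeff_add, Polynomial.coeff_C_zero, Polynomial.coeff_C_mul,
      Polynomial.coeff_X_zero, Polynomial.coeff_zero, mul_zero, add_zero] at h1
    rcases div_eq_zero_iff.1 h1 with h2 | h2
    · exact hg p q a hd ha hq h2
    · exact hd h2

theorem res_eq_zero_iff {p q : Fin N} (hd : D.det2 p q ≠ 0) (A : MvPolynomial (Fin 2) K) :
    D.res p q A = 0 ↔ D.line p ∣ A := by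
  refine ⟨D.dvd_of_res hd, ?_⟩
  rintro ⟨B, rfl⟩
  rw [map_mul, res_self hd, zero_mul]

theorem prime_line (hg : D.Generic) (hdir : ∀ p, ∃ q, D.det2 p q ≠ 0) (p : Fin N) :
    Prime (D.line p) := by
  obtain ⟨q, hq⟩ := hdir p
  have hpq : p ≠ q := by
    rintro rfl
    exact hq (det2_self p)
  refine ⟨?_, ?_, ?_⟩
  · intro h
    apply res_ne_zero hg (det2_ne_symm hq) hpq
    rw [h, map_zero]
  · intro h
    have h1 := h.map (D.res p q)
    rw [res_self hq] at h1
    exact not_isUnit_zero h1
  · intro A B h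
    rw [← res_eq_zero_iff hq] at h ⊢
    rw [← res_eq_zero_iff hq]
    rw [map_mul] at h
    exact mul_eq_zero.1 h

theorem not_dvd (hg : D.Generic) (hdir : ∀ p, ∃ q, D.det2 p q ≠ 0) {p a : Fin N} (h : a ≠ p) :
    ¬ D.line p ∣ D.line a := by
  obtain ⟨q, hq⟩ := hdir p
  rw [← res_eq_zero_iff hq]
  exact res_ne_zero hg hq h

theorem prod_dvd (hg : D.Generic) (hdir : ∀ p, ∃ q, D.det2 p q ≠ 0) {A : MvPolynomial (Fin 2) K}
    (h : ∀ p, D.line p ∣ A) : ∏ p, D.line p ∣ A := by
  refine Finset.prod_dvd_of_isRelPrime ?_ fun p _ => h p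
  intro p _ a _ hpa
  exact (prime_line hg hdir p).irreducible.isRelPrime_iff_not_dvd.2 (not_dvd hg hdir hpa.symm)

/-- the node -/
noncomputable def node (D : Dat K N) (p q : Fin N) : Fin 2 → K :=
  ![(D.be p * D.ga q - D.be q * D.ga p) / D.det2 p q, (D.al q * D.ga p - D.al p * D.ga q) / D.det2 p q]

theorem eval_line (z : Fin 2 → K) (p : Fin N) :
    eval z (D.line p) = D.al p * z 0 + D.be p * z 1 + D.ga p := by
  unfold line
  simp only [map_add, map_mul, eval_C, eval_X]

theorem node_left {p q : Fin N} (hd : D.det2 p q ≠ 0) : eval (D.node p q) (D.line p) = 0 := by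
  rw [eval_line]
  unfold node
  simp only [Matrix.cons_val_zero, Matrix.cons_val_one]
  field_simp
  unfold det2
  ring

theorem node_right {p q : Fin N} (hd : D.det2 p q ≠ 0) : eval (D.node p q) (D.line q) = 0 := by
  rw [eval_line]
  unfold node
  simp only [Matrix.cons_val_zero, Matrix.cons_val_one]
  field_simp
  unfold det2
  ring

theorem ne_par (hdir : ∀ p, ∃ q, D.det2 p q ≠ 0) {A : MvPolynomial (Fin 2) K} (κ : Fin N → K)
    (h : ∀ p, D.line p ∣ A - C (κ p)) (p q : Fin N) : κ p = κ q := by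
  have key : ∀ p q, D.det2 p q ≠ 0 → κ p = κ q := by
    intro p q hd
    have h1 : eval (D.node p q) (A - C (κ p)) = 0 := by
      obtain ⟨B, hB⟩ := h p
      rw [hB, map_mul, node_left hd, zero_mul]
    have h2 : eval (D.node p q) (A - C (κ q)) = 0 := by
      obtain ⟨B, hB⟩ := h q
      rw [hB, map_mul, node_right hd, zero_mul]
    rw [map_sub, eval_C, sub_eq_zero] at h1 h2
    rw [← h1, h2]
  by_cases hd : D.det2 p q = 0
  · obtain ⟨r, hr⟩ := hdir p
    rw [key p r hr, key q r (par_trans hdir hr hd)]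
  · exact key p q hd

/-- the two factors are constants modulo the product of the lines -/
theorem factor_const (hg : D.Generic) (hdir : ∀ p, ∃ q, D.det2 p q ≠ 0)
    {A B : MvPolynomial (Fin 2) K} (h : D.eqn = A * B) (p₀ : Fin N) :
    ∃ κ, ∏ p, D.line p ∣ A - C κ := by
  have h1 : ∀ p, ∃ κ, D.line p ∣ A - C κ := by
    intro p
    obtain ⟨q, hq⟩ := hdir p
    have h2 : D.res p q A * D.res p q B = -1 := by
      rw [← map_mul, ← h]
      unfold eqn
      rw [map_sub, map_mul, map_prod, Finset.prod_eq_zero (Finset.mem_univ p) (res_self hq), map_one,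
        mul_zero, zero_sub]
    have h3 : IsUnit (D.res p q A) := IsUnit.of_mul_eq_one (-D.res p q B) (by rw [mul_neg, h2, neg_neg])
    obtain ⟨κ, -, hκ⟩ := Polynomial.isUnit_iff.1 h3
    refine ⟨κ, ?_⟩
    rw [← res_eq_zero_iff hq, map_sub, ← hκ, algHom_C, Polynomial.algebraMap_eq, sub_self]
  choose κ hκ using h1
  refine ⟨κ p₀, prod_dvd hg hdir fun p => ?_⟩
  rw [← ne_par hdir κ hκ p p₀]
  exact hκ p

theorem irreducible_eqn (hg : D.Generic) (hdir : ∀ p, ∃ q, D.det2 p q ≠ 0) (hl : D.lam ≠ 0)
    (p₀ : Fin N) : Irreducible D.eqn := by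
  obtain ⟨q₀, hq₀⟩ := hdir p₀
  have hP0 : (∏ p, D.line p) ≠ 0 := Finset.prod_ne_zero_iff.2 fun p _ => (prime_line hg hdir p).ne_zero
  have hdP : 0 < (∏ p, D.line p).totalDegree := by
    rw [Nat.pos_iff_ne_zero]
    intro h
    have h1 := totalDegree_eq_zero_iff_eq_C.1 h
    have h2 : D.res p₀ q₀ (∏ p, D.line p) = 0 := by
      rw [map_prod, Finset.prod_eq_zero (Finset.mem_univ p₀) (res_self hq₀)]
    rw [h1, algHom_C, Polynomial.algebraMap_eq, Polynomial.C_eq_zero] at h2
    apply hP0
    rw [h1, h2, C_0]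
  have hev : eval (D.node p₀ q₀) (∏ p, D.line p) = 0 := by
    rw [map_prod, Finset.prod_eq_zero (Finset.mem_univ p₀) (node_left hq₀)]
  refine ⟨?_, ?_⟩
  · intro h
    obtain ⟨r, -, hr⟩ := isUnit_iff_eq_C_of_isReduced.1 h
    have h1 : eval (D.node p₀ q₀) D.eqn = r := by rw [hr, eval_C]
    unfold eqn at h1 hr
    rw [map_sub, map_mul, hev, mul_zero, zero_sub, map_one] at h1
    rw [← h1, C_neg, C_1, sub_eq_neg_self, mul_eq_zero] at hr
    rcases hr with hr | hr
    · exact hl (C_eq_zero.1 hr)
    · exact hP0 hr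
  · intro A B hAB
    obtain ⟨κ, H, hH⟩ := factor_const hg hdir hAB p₀
    obtain ⟨κ', H', hH'⟩ := factor_const hg hdir (hAB.trans (mul_comm A B)) p₀
    have hA : A = C κ + (∏ p, D.line p) * H := by rw [← hH]; ring
    have hB : B = C κ' + (∏ p, D.line p) * H' := by rw [← hH']; ring
    have hκ : κ * κ' = -1 := by
      have h1 := congrArg (eval (D.node p₀ q₀)) hAB
      rw [map_mul, hA, hB] at h1
      unfold eqn at h1
      simp only [map_sub, map_mul, map_add, hev, eval_C, mul_zero, zero_mul, add_zero, map_one,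
        zero_sub] at h1
      exact h1.symm
    have hκ0 : κ ≠ 0 := by
      rintro rfl
      rw [zero_mul] at hκ
      exact one_ne_zero (neg_eq_zero.1 hκ.symm)
    have hκ0' : κ' ≠ 0 := by
      rintro rfl
      rw [mul_zero] at hκ
      exact one_ne_zero (neg_eq_zero.1 hκ.symm)
    have hC : (C κ * C κ' : MvPolynomial (Fin 2) K) = -1 := by
      rw [← C_mul, hκ, C_neg, C_1]
    have h2 : (∏ p, D.line p) * (C κ * H' + C κ' * H + H * H' * ∏ p, D.line p) =
        (∏ p, D.line p) * C D.lam := by
      have h1 := hAB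
      rw [hA, hB] at h1
      unfold eqn at h1
      linear_combination (-1 : MvPolynomial (Fin 2) K) * h1 - hC
    have h3 := mul_left_cancel₀ hP0 h2
    by_cases hH0 : H = 0
    · left
      rw [hA, hH0, mul_zero, add_zero]
      exact (isUnit_iff_ne_zero.2 hκ0).map C
    by_cases hH0' : H' = 0
    · right
      rw [hB, hH0', mul_zero, add_zero]
      exact (isUnit_iff_ne_zero.2 hκ0').map C
    exfalso
    have h4 : H * H' * ∏ p, D.line p = C D.lam - (C κ * H' + C κ' * H) := by
      rw [← h3]
      ring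
    have h5 : (H * H' * ∏ p, D.line p).totalDegree =
        H.totalDegree + H'.totalDegree + (∏ p, D.line p).totalDegree := by
      rw [totalDegree_mul_of_isDomain (mul_ne_zero hH0 hH0') hP0,
        totalDegree_mul_of_isDomain hH0 hH0']
    have h6 : (C κ * H').totalDegree ≤ H'.totalDegree := by
      refine (totalDegree_mul _ _).trans ?_
      rw [totalDegree_C, zero_add]
    have h7 : (C κ' * H).totalDegree ≤ H.totalDegree := by
      refine (totalDegree_mul _ _).trans ?_
      rw [totalDegree_C, zero_add]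
    have h8 : (C D.lam - (C κ * H' + C κ' * H)).totalDegree ≤
        max H'.totalDegree H.totalDegree := by
      refine (totalDegree_sub _ _).trans ?_
      rw [totalDegree_C]
      refine max_le (Nat.zero_le _) ((totalDegree_add _ _).trans (max_le_max h6 h7))
    rw [← h4, h5] at h8
    rcases le_max_iff.1 h8 with h9 | h9 <;> omega

/-- the coordinate ring is a domain -/
theorem isDomain (hg : D.Generic) (hdir : ∀ p, ∃ q, D.det2 p q ≠ 0) (hl : D.lam ≠ 0)
    (p₀ : Fin N) : IsDomain D.CRing := by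
  have h := irreducible_eqn hg hdir hl p₀
  have h1 : (Ideal.span {D.eqn}).IsPrime := (Ideal.span_singleton_prime h.ne_zero).2 h.prime
  exact show IsDomain (MvPolynomial (Fin 2) K ⧸ Ideal.span {D.eqn}) from inferInstance

end Dat

end Pool.Agent.W5h29.LA
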