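import Pool.Agent.Y797.FP.Loop
set_option autoImplicit false

/-!
The loop around a node.
-/

namespace Pool.Agent.W5h29.LA.Nd

open MeasureTheory Set Metric Filter Topology

open Pool.Agent.TH826.MK (circ norm_circ contDiff_circ circ_add_one hasDerivAt_circ)

variable {ι : Type*}

theorem prod_le_pow (A : Finset ι) {y : ι → ℂ} (hy : ∀ a ∈ A, ‖y a‖ ≤ 1 / 3) :
    ‖∏ a ∈ A, y a‖ ≤ (1 / 3) ^ A.card := by
  rw [norm_prod, ← Finset.prod_const]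
  exact Finset.prod_le_prod (fun a _ => norm_nonneg _) hy

theorem prod_sub_le (A : Finset ι) {x y : ι → ℂ} {δ : ℝ} (hδ : 0 ≤ δ)
    (hx : ∀ a ∈ A, ‖x a‖ ≤ 1 / 3) (hy : ∀ a ∈ A, ‖y a‖ ≤ 1 / 3) (hd : ∀ a ∈ A, ‖x a - y a‖ ≤ δ) :
    ‖∏ a ∈ A, x a - ∏ a ∈ A, y a‖ ≤ 3 * (A.card * (1 / 3) ^ A.card) * δ := by
  classical
  induction A using Finset.induction_on with
  | empty => simp
  | insert a A ha ih =>
    have ih' := ih (fun b hb => hx b (Finset.mem_insert_of_mem hb))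
      (fun b hb => hy b (Finset.mem_insert_of_mem hb)) (fun b hb => hd b (Finset.mem_insert_of_mem hb))
    have h1 := prod_le_pow A (y := y) fun b hb => hy b (Finset.mem_insert_of_mem hb)
    have h2 := hx a (Finset.mem_insert_self _ _)
    have h3 := hd a (Finset.mem_insert_self _ _)
    rw [Finset.prod_insert ha, Finset.prod_insert ha, Finset.card_insert_of_notMem ha]
    have e : x a * ∏ b ∈ A, x b - y a * ∏ b ∈ A, y b =
        x a * (∏ b ∈ A, x b - ∏ b ∈ A, y b) + (x a - y a) * ∏ b ∈ A, y b := by ring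
    rw [e]
    refine (norm_add_le _ _).trans ?_
    rw [norm_mul, norm_mul]
    have h4 : ‖x a‖ * ‖∏ b ∈ A, x b - ∏ b ∈ A, y b‖ ≤
        1 / 3 * (3 * (A.card * (1 / 3) ^ A.card) * δ) :=
      mul_le_mul h2 ih' (norm_nonneg _) (by norm_num)
    have h5 : ‖x a - y a‖ * ‖∏ b ∈ A, y b‖ ≤ δ * (1 / 3) ^ A.card :=
      mul_le_mul h3 h1 (norm_nonneg _) hδ
    rw [pow_succ]
    push_cast
    linarith

theorem three_mul_le (k : ℕ) (hk : 1 ≤ k) : 3 * ((k : ℝ) * (1 / 3) ^ k) ≤ 1 := by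
  have h : ∀ n : ℕ, (3 : ℝ) * (n + 1) ≤ 3 ^ (n + 1) := by
    intro n
    induction n with
    | zero => norm_num
    | succ n ih =>
      have h1 : (3 : ℝ) ^ (n + 1 + 1) = 3 ^ (n + 1) * 3 := pow_succ _ _
      rw [h1]
      push_cast
      linarith [Nat.cast_nonneg (α := ℝ) n]
  obtain ⟨n, rfl⟩ := Nat.exists_eq_add_of_le' hk
  have h1 := h n
  have h2 : (0 : ℝ) < 3 ^ (n + 1) := by positivity
  rw [one_div, inv_pow]
  push_cast
  rw [← mul_assoc, mul_inv_le_iff₀ h2, one_mul]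
  exact h1

/-- the hypotheses -/
structure Good (A : Finset ι) (Λ r s : ι → ℂ) (u : ℂ) : Prop where
  big : ∀ a ∈ A, 5 ≤ ‖Λ a‖
  r1 : ∀ a ∈ A, ‖r a‖ ≤ 1
  s1 : ∀ a ∈ A, ‖s a‖ ≤ 1
  u1 : ‖u‖ ≤ 1
  u0 : u ≠ 0
  k1 : 1 ≤ A.card

/-- the linear functions -/
def M (Λ r s : ι → ℂ) (a : ι) (X Y : ℂ) : ℂ := Λ a + r a * X + s a * Y

/-- the map whose fixed points are the points of the curve -/
noncomputable def Phi (A : Finset ι) (Λ r s : ι → ℂ) (u : ℂ) (X Y : ℂ) : ℂ :=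
  u * X⁻¹ * ∏ a ∈ A, (M Λ r s a X Y)⁻¹

variable {A : Finset ι} {Λ r s : ι → ℂ} {u : ℂ}

theorem M_ge (h : Good A Λ r s u) {a : ι} (ha : a ∈ A) {X Y : ℂ} (hX : ‖X‖ ≤ 1) (hY : ‖Y‖ ≤ 1) :
    3 ≤ ‖M Λ r s a X Y‖ := by
  have h1 : ‖r a * X‖ ≤ 1 := by
    rw [norm_mul]
    exact mul_le_one₀ (h.r1 a ha) (norm_nonneg _) hX
  have h2 : ‖s a * Y‖ ≤ 1 := by
    rw [norm_mul]
    exact mul_le_one₀ (h.s1 a ha) (norm_nonneg _) hY
  have h3 := h.big a ha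
  have e : Λ a = M Λ r s a X Y - r a * X - s a * Y := by
    unfold M
    ring
  have h4 : ‖Λ a‖ ≤ ‖M Λ r s a X Y‖ + ‖r a * X‖ + ‖s a * Y‖ := by
    conv_lhs => rw [e]
    exact (norm_sub_le _ _).trans (add_le_add_left (norm_sub_le _ _) _)
  linarith

theorem M_ne (h : Good A Λ r s u) {a : ι} (ha : a ∈ A) {X Y : ℂ} (hX : ‖X‖ ≤ 1) (hY : ‖Y‖ ≤ 1) :
    M Λ r s a X Y ≠ 0 := by
  have h1 := M_ge h ha hX hY
  intro h2
  rw [h2, norm_zero] at h1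
  linarith

theorem inv_M_le (h : Good A Λ r s u) {a : ι} (ha : a ∈ A) {X Y : ℂ} (hX : ‖X‖ ≤ 1)
    (hY : ‖Y‖ ≤ 1) : ‖(M Λ r s a X Y)⁻¹‖ ≤ 1 / 3 := by
  rw [norm_inv, one_div]
  exact inv_anti₀ (by norm_num) (M_ge h ha hX hY)

theorem Phi_le (h : Good A Λ r s u) {X Y : ℂ} (hX : ‖X‖ = 1) (hY : ‖Y‖ ≤ 1) :
    ‖Phi A Λ r s u X Y‖ ≤ (1 / 3) ^ A.card := by
  unfold Phi
  rw [norm_mul, norm_mul, norm_inv, hX, inv_one, mul_one]
  have h1 := prod_le_pow A fun a ha => inv_M_le h ha hX.le hY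
  calc _ ≤ 1 * (1 / 3) ^ A.card := mul_le_mul h.u1 h1 (norm_nonneg _) zero_le_one
    _ = _ := one_mul _

theorem pow_le_third (h : Good A Λ r s u) : ((1 : ℝ) / 3) ^ A.card ≤ 1 / 3 := by
  calc ((1 : ℝ) / 3) ^ A.card ≤ (1 / 3) ^ 1 := pow_le_pow_of_le_one (by norm_num) (by norm_num) h.k1
    _ = 1 / 3 := pow_one _

theorem Phi_sub (h : Good A Λ r s u) {X Y X' Y' : ℂ} (hX : ‖X‖ = 1) (hY : ‖Y‖ ≤ 1)
    (hX' : ‖X'‖ = 1) (hY' : ‖Y'‖ ≤ 1) :
    ‖Phi A Λ r s u X Y - Phi A Λ r s u X' Y'‖ ≤ 4 / 9 * ‖X - X'‖ + 1 / 9 * ‖Y - Y'‖ := by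
  have h1 : ∀ a ∈ A, ‖(M Λ r s a X Y)⁻¹ - (M Λ r s a X' Y')⁻¹‖ ≤ (‖X - X'‖ + ‖Y - Y'‖) / 9 := by
    intro a ha
    have n1 := M_ne h ha hX.le hY
    have n2 := M_ne h ha hX'.le hY'
    have e : (M Λ r s a X Y)⁻¹ - (M Λ r s a X' Y')⁻¹ =
        (M Λ r s a X' Y' - M Λ r s a X Y) * ((M Λ r s a X Y)⁻¹ * (M Λ r s a X' Y')⁻¹) := by
      field_simp
    rw [e, norm_mul, norm_mul]
    have h2 := inv_M_le h ha hX.le hY
    have h3 := inv_M_le h ha hX'.le hY'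
    have h4 : ‖M Λ r s a X' Y' - M Λ r s a X Y‖ ≤ ‖X - X'‖ + ‖Y - Y'‖ := by
      have e2 : M Λ r s a X' Y' - M Λ r s a X Y = -(r a * (X - X') + s a * (Y - Y')) := by
        unfold M
        ring
      rw [e2, norm_neg]
      refine (norm_add_le _ _).trans ?_
      rw [norm_mul, norm_mul]
      have h5 := mul_le_mul_of_nonneg_right (h.r1 a ha) (norm_nonneg (X - X'))
      have h6 := mul_le_mul_of_nonneg_right (h.s1 a ha) (norm_nonneg (Y - Y'))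
      linarith
    have h5 : ‖(M Λ r s a X Y)⁻¹‖ * ‖(M Λ r s a X' Y')⁻¹‖ ≤ 1 / 3 * (1 / 3) :=
      mul_le_mul h2 h3 (norm_nonneg _) (by norm_num)
    calc _ ≤ (‖X - X'‖ + ‖Y - Y'‖) * (1 / 3 * (1 / 3)) :=
          mul_le_mul h4 h5 (by positivity) (by positivity)
      _ = _ := by ring
  have h2 := prod_sub_le A (δ := (‖X - X'‖ + ‖Y - Y'‖) / 9) (by positivity)
    (fun a ha => inv_M_le h ha hX.le hY) (fun a ha => inv_M_le h ha hX'.le hY') h1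
  have h3 := three_mul_le A.card h.k1
  have h4 : ‖∏ a ∈ A, (M Λ r s a X Y)⁻¹ - ∏ a ∈ A, (M Λ r s a X' Y')⁻¹‖ ≤
      (‖X - X'‖ + ‖Y - Y'‖) / 9 :=
    h2.trans (mul_le_of_le_one_left (by positivity) h3)
  have h5 := (prod_le_pow A fun a ha => inv_M_le h ha hX.le hY).trans (pow_le_third h)
  have hX0 : X ≠ 0 := fun h0 => by rw [h0, norm_zero] at hX; exact zero_ne_one hX
  have hX0' : X' ≠ 0 := fun h0 => by rw [h0, norm_zero] at hX'; exact zero_ne_one hX'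
  have h6 : ‖X⁻¹ - X'⁻¹‖ = ‖X - X'‖ := by
    have e : X⁻¹ - X'⁻¹ = (X' - X) * (X⁻¹ * X'⁻¹) := by
      field_simp
    rw [e, norm_mul, norm_mul, norm_inv, norm_inv, hX, hX', inv_one, mul_one, mul_one, norm_sub_rev]
  have e : Phi A Λ r s u X Y - Phi A Λ r s u X' Y' =
      u * (X⁻¹ - X'⁻¹) * ∏ a ∈ A, (M Λ r s a X Y)⁻¹ +
        u * X'⁻¹ * (∏ a ∈ A, (M Λ r s a X Y)⁻¹ - ∏ a ∈ A, (M Λ r s a X' Y')⁻¹) := by
    unfold Phi
    ring
  rw [e]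
  refine (norm_add_le _ _).trans ?_
  rw [norm_mul, norm_mul, norm_mul, norm_mul, h6, norm_inv X', hX', inv_one, mul_one]
  have h7 : ‖u‖ * ‖X - X'‖ * ‖∏ a ∈ A, (M Λ r s a X Y)⁻¹‖ ≤ 1 * ‖X - X'‖ * (1 / 3) :=
    mul_le_mul (mul_le_mul_of_nonneg_right h.u1 (norm_nonneg _)) h5 (norm_nonneg _) (by positivity)
  have h8 : ‖u‖ * ‖∏ a ∈ A, (M Λ r s a X Y)⁻¹ - ∏ a ∈ A, (M Λ r s a X' Y')⁻¹‖ ≤
      1 * ((‖X - X'‖ + ‖Y - Y'‖) / 9) :=
    mul_le_mul h.u1 h4 (norm_nonneg _) zero_le_one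
  linarith

theorem exists_fix (h : Good A Λ r s u) {X : ℂ} (hX : ‖X‖ = 1) :
    ∃ Y : ℂ, ‖Y‖ ≤ 1 ∧ Phi A Λ r s u X Y = Y := by
  have hmaps : MapsTo (Phi A Λ r s u X) (closedBall 0 1) (closedBall 0 1) := by
    intro Y hY
    rw [mem_closedBall_zero_iff] at hY ⊢
    have := (Phi_le h hX hY).trans (pow_le_third h)
    linarith
  have hcon : ContractingWith (1 / 9) (hmaps.restrict (Phi A Λ r s u X) _ _) := by
    refine ⟨by norm_num, LipschitzWith.of_dist_le_mul fun Y Y' => ?_⟩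
    rw [Subtype.dist_eq, Subtype.dist_eq, dist_eq_norm, dist_eq_norm]
    have hY := mem_closedBall_zero_iff.1 Y.2
    have hY' := mem_closedBall_zero_iff.1 Y'.2
    have h1 := Phi_sub h hX hY hX hY'
    rw [sub_self, norm_zero, mul_zero, zero_add] at h1
    refine h1.trans (le_of_eq ?_)
    norm_num
  obtain ⟨Y, hY, hfix, -, -⟩ := ContractingWith.exists_fixedPoint' isClosed_closedBall.isComplete hmaps
    hcon (x := 0) (mem_closedBall_self zero_le_one) (edist_ne_top _ _)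
  exact ⟨Y, mem_closedBall_zero_iff.1 hY, hfix⟩

theorem fix_lip (h : Good A Λ r s u) {X X' Y Y' : ℂ} (hX : ‖X‖ = 1) (hX' : ‖X'‖ = 1)
    (hY : ‖Y‖ ≤ 1) (hY' : ‖Y'‖ ≤ 1) (e : Phi A Λ r s u X Y = Y) (e' : Phi A Λ r s u X' Y' = Y') :
    ‖Y - Y'‖ ≤ 1 / 2 * ‖X - X'‖ := by
  have h1 := Phi_sub h hX hY hX' hY'
  rw [e, e'] at h1
  linarith

/-- the function whose zeros are the points -/
noncomputable def G (A : Finset ι) (Λ r s : ι → ℂ) (u : ℂ) (v : ℝ × ℂ) : ℂ :=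
  v.2 - Phi A Λ r s u (circ 1 v.1) v.2

theorem circ_ne (t : ℝ) : circ 1 t ≠ 0 := by
  rw [← norm_pos_iff, norm_circ zero_le_one]
  exact one_pos

theorem contDiffAt_G (h : Good A Λ r s u) (t₀ : ℝ) {y₀ : ℂ} (hy : ‖y₀‖ ≤ 1) :
    ContDiffAt ℝ 2 (G A Λ r s u) (t₀, y₀) := by
  have hX : ContDiffAt ℝ 2 (fun v : ℝ × ℂ => circ 1 v.1) (t₀, y₀) :=
    (contDiff_circ 1).contDiffAt.comp (t₀, y₀) contDiffAt_fst
  have hM : ∀ a, ContDiffAt ℝ 2 (fun v : ℝ × ℂ => M Λ r s a (circ 1 v.1) v.2) (t₀, y₀) := by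
    intro a
    unfold M
    exact (contDiffAt_const.add (contDiffAt_const.mul hX)).add (contDiffAt_const.mul contDiffAt_snd)
  have hn : ‖circ 1 t₀‖ = 1 := norm_circ zero_le_one t₀
  have hP : ContDiffAt ℝ 2 (fun v : ℝ × ℂ => ∏ a ∈ A, (M Λ r s a (circ 1 v.1) v.2)⁻¹) (t₀, y₀) :=
    contDiffAt_prod fun a ha => (hM a).inv (M_ne h ha hn.le hy)
  exact contDiffAt_snd.sub ((contDiffAt_const.mul (hX.inv (circ_ne t₀))).mul hP)

theorem hasDerivAt_Phi (h : Good A Λ r s u) {X : ℂ} (hX : ‖X‖ = 1) {y₀ : ℂ} (hy : ‖y₀‖ < 1) :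
    ∃ c : ℂ, ‖c‖ ≤ 1 / 9 ∧ HasDerivAt (Phi A Λ r s u X) c y₀ := by
  have hd : DifferentiableAt ℂ (Phi A Λ r s u X) y₀ := by
    unfold Phi
    refine (differentiableAt_const _).mul ?_
    refine DifferentiableAt.fun_finsetProd fun a ha => ?_
    refine DifferentiableAt.inv ?_ (M_ne h ha hX.le hy.le)
    unfold M
    exact (differentiableAt_const _).add ((differentiableAt_const _).mul differentiableAt_id)
  refine ⟨_, ?_, hd.hasDerivAt⟩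
  refine hd.hasDerivAt.le_of_lip' (by norm_num) ?_
  have hev : ∀ᶠ y in 𝓝 y₀, ‖y‖ < 1 := (continuous_norm.tendsto y₀).eventually_lt_const hy
  filter_upwards [hev] with y hy1
  have h1 := Phi_sub h hX hy1.le hX hy.le
  rwa [sub_self, norm_zero, mul_zero, zero_add] at h1

theorem invertible_G (h : Good A Λ r s u) (t₀ : ℝ) {y₀ : ℂ} (hy : ‖y₀‖ < 1) :
    (fderiv ℝ (G A Λ r s u) (t₀, y₀) ∘L .inr ℝ ℝ ℂ).IsInvertible := by
  obtain ⟨c, hc1, hc⟩ := hasDerivAt_Phi h (norm_circ zero_le_one t₀) hy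
  have hne : 1 - c ≠ 0 := by
    intro h1
    rw [sub_eq_zero] at h1
    rw [← h1, norm_one] at hc1
    norm_num at hc1
  have h0 : HasFDerivAt (G A Λ r s u) (fderiv ℝ (G A Λ r s u) (t₀, y₀)) (t₀, y₀) :=
    ((contDiffAt_G h t₀ hy.le).differentiableAt (by simp)).hasFDerivAt
  have h1 : HasFDerivAt (fun s : ℂ => (t₀, s)) (ContinuousLinearMap.inr ℝ ℝ ℂ) y₀ :=
    hasFDerivAt_prodMk_right t₀ y₀
  have h2 : HasFDerivAt (fun y : ℂ => G A Λ r s u (t₀, y))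
      (fderiv ℝ (G A Λ r s u) (t₀, y₀) ∘L .inr ℝ ℝ ℂ) y₀ := HasFDerivAt.comp y₀ h0 h1
  have h3 : HasDerivAt (fun y : ℂ => G A Λ r s u (t₀, y)) (1 - c) y₀ := (hasDerivAt_id y₀).sub hc
  have h4 := h3.hasFDerivAt.restrictScalars ℝ
  have h5 := h2.unique h4
  rw [h5]
  refine ⟨(ContinuousLinearEquiv.unitsEquivAut ℂ (Units.mk0 (1 - c) hne)).restrictScalars ℝ, ?_⟩
  ext y
  simp

theorem circ_lip : LipschitzWith (2 * NNReal.pi) (circ 1) := by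
  refine lipschitzWith_of_nnnorm_deriv_le ((contDiff_circ 1 (n := 2)).differentiable (by norm_num)) ?_
  intro t
  rw [(hasDerivAt_circ 1 t).deriv, ← NNReal.coe_le_coe, coe_nnnorm, norm_mul,
    norm_circ zero_le_one, mul_one]
  simp [abs_of_pos Real.pi_pos]

/-- the loop around the node -/
theorem exists_Y (h : Good A Λ r s u) : ∃ Y : ℝ → ℂ, ContDiff ℝ 2 Y ∧ (∀ t, Y (t + 1) = Y t) ∧
    (∀ t, ‖Y t‖ ≤ (1 / 3) ^ A.card) ∧ (∀ t, Y t ≠ 0) ∧ (∀ t, ‖deriv Y t‖ ≤ Real.pi) ∧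
    ∀ t, circ 1 t * Y t * ∏ a ∈ A, M Λ r s a (circ 1 t) (Y t) = u := by
  have hn : ∀ t, ‖circ 1 t‖ = 1 := fun t => norm_circ zero_le_one t
  choose Y hY hfix using fun t : ℝ => exists_fix h (hn t)
  have hlip : LipschitzWith NNReal.pi Y := by
    refine LipschitzWith.of_dist_le_mul fun t t' => ?_
    have h1 := fix_lip h (hn t) (hn t') (hY t) (hY t') (hfix t) (hfix t')
    have h2 := circ_lip.dist_le_mul t t'
    rw [dist_eq_norm] at h2 ⊢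
    push_cast at h2
    rw [NNReal.coe_real_pi] at h2 ⊢
    linarith
  have hsmall : ∀ t, ‖Y t‖ ≤ (1 / 3) ^ A.card := by
    intro t
    rw [← hfix t]
    exact Phi_le h (hn t) (hY t)
  have hlt : ∀ t, ‖Y t‖ < 1 := fun t => by
    have := (hsmall t).trans (pow_le_third h)
    linarith
  have hsm : ContDiff ℝ 2 Y := by
    rw [contDiff_iff_contDiffAt]
    intro t₀
    have hcd := contDiffAt_G h t₀ (hY t₀)
    have hinv := invertible_G h t₀ (hlt t₀)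
    have hiff := hcd.eventually_apply_eq_iff_implicitFunction (by simp) hinv
    have hc : Tendsto (fun t => (t, Y t)) (𝓝 t₀) (𝓝 (t₀, Y t₀)) :=
      (continuous_id.prodMk hlip.continuous).tendsto t₀
    have hev := hc.eventually hiff
    have h0 : ∀ t, G A Λ r s u (t, Y t) = 0 := by
      intro t
      unfold G
      rw [hfix t, sub_self]
    refine (hcd.contDiffAt_implicitFunction (by simp) hinv).congr_of_eventuallyEq ?_
    filter_upwards [hev] with t ht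
    rw [h0, h0] at ht
    exact (ht.1 rfl).symm
  have heq : ∀ t, circ 1 t * Y t * ∏ a ∈ A, M Λ r s a (circ 1 t) (Y t) = u := by
    intro t
    have h1 := hfix t
    have h2 : ∏ a ∈ A, M Λ r s a (circ 1 t) (Y t) ≠ 0 :=
      Finset.prod_ne_zero_iff.2 fun a ha => M_ne h ha (hn t).le (hY t)
    have h3 := circ_ne t
    unfold Phi at h1
    rw [Finset.prod_inv_distrib] at h1
    have h4 : circ 1 t * Y t * ∏ a ∈ A, M Λ r s a (circ 1 t) (Y t) =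
        circ 1 t * (u * (circ 1 t)⁻¹ * (∏ a ∈ A, M Λ r s a (circ 1 t) (Y t))⁻¹) *
          ∏ a ∈ A, M Λ r s a (circ 1 t) (Y t) := by
      rw [h1]
    rw [h4]
    field_simp
  refine ⟨Y, hsm, ?_, hsmall, ?_, ?_, heq⟩
  · intro t
    have h1 := fix_lip h (hn (t + 1)) (hn t) (hY (t + 1)) (hY t) (hfix (t + 1)) (hfix t)
    rw [circ_add_one, sub_self, norm_zero, mul_zero] at h1
    exact sub_eq_zero.1 (norm_le_zero_iff.1 h1)
  · intro t h0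
    have h1 := heq t
    rw [h0, mul_zero, zero_mul] at h1
    exact h.u0 h1.symm
  · intro t
    have h1 := norm_deriv_le_of_lipschitz hlip (x₀ := t)
    rwa [NNReal.coe_real_pi] at h1

end Pool.Agent.W5h29.LA.Nd
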