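import Pool.Agent.W5h29.LA.Dom
set_option autoImplicit false

/-!
The affine curve `λ ∏_p L_p = 1` is smooth.
-/

namespace Pool.Agent.W5h29.LA

open MvPolynomial

namespace Dat

variable {K : Type*} [Field K] {N : ℕ} {D : Dat K N}

theorem norm_det2 (h : D.Directions) (σ : K →+* ℂ) {p q : Fin N} (hd : D.det2 p q ≠ 0) :
    ‖σ (D.det2 p q)‖ = 1 := by
  rcases h.1 p q with h0 | ⟨m, hm, h1⟩
  · exact absurd h0 hd
  · have h2 : ‖σ (D.det2 p q)‖ ^ m = 1 := by
      rw [← norm_pow, ← map_pow, h1, map_one, norm_one]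
    exact (pow_eq_one_iff_of_nonneg (norm_nonneg _) hm).1 h2

theorem norm_det2_le (h : D.Directions) (σ : K →+* ℂ) (p q : Fin N) :
    ‖σ (D.det2 p q)‖ ≤ 1 := by
  by_cases hd : D.det2 p q = 0
  · rw [hd, map_zero, norm_zero]
    exact zero_le_one
  · exact (norm_det2 h σ hd).le

theorem ne_of_det2 {p q : Fin N} (h : D.det2 p q ≠ 0) : p ≠ q := by
  rintro rfl
  exact h (det2_self p)

/-- the value of a linear polynomial -/
noncomputable def val (D : Dat K N) (σ : K →+* ℂ) (z : Fin 2 → ℂ) (p : Fin N) : ℂ :=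
  σ (D.al p) * z 0 + σ (D.be p) * z 1 + σ (D.ga p)

theorem eval_line' (σ : K →+* ℂ) (z : Fin 2 → ℂ) (p : Fin N) :
    eval₂Hom σ z (D.line p) = D.val σ z p := by
  unfold val line
  simp only [map_add, map_mul, eval₂Hom_C, eval₂Hom_X']

/-- the linear relation between three linear polynomials -/
theorem val_rel (σ : K →+* ℂ) (z : Fin 2 → ℂ) (p q a : Fin N) :
    σ (D.det3 p q a) = D.val σ z p * σ (D.det2 q a) + D.val σ z q * σ (D.det2 a p) +
      D.val σ z a * σ (D.det2 p q) := by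
  unfold val det3 det2
  simp only [map_add, map_mul, map_sub]
  ring

theorem sq_lt (n : ℕ) : (n : ℝ) ^ 2 + 2 ≤ 4 * 2 ^ n := by
  induction n with
  | zero => norm_num
  | succ n ih =>
    have h1 : (2 : ℝ) ^ (n + 1) = 2 ^ n * 2 := pow_succ _ _
    push_cast
    rw [h1]
    nlinarith [sq_nonneg ((n : ℝ) - 1)]

/-- the logarithmic derivative of a product -/
theorem eval_pderiv (σ : K →+* ℂ) (z : Fin 2 → ℂ) (i : Fin 2) (v : Fin N → ℂ)
    (hv : ∀ p, eval₂Hom σ z (pderiv i (D.line p)) = v p) (h0 : ∀ p, D.val σ z p ≠ 0)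
    (s : Finset (Fin N)) :
    eval₂Hom σ z (pderiv i (∏ p ∈ s, D.line p)) =
      (∏ p ∈ s, D.val σ z p) * ∑ p ∈ s, v p / D.val σ z p := by
  classical
  induction s using Finset.induction_on with
  | empty =>
    simp
  | insert a s ha ih =>
    rw [Finset.prod_insert ha, Finset.prod_insert ha, Finset.sum_insert ha, pderiv_mul, map_add,
      map_mul, map_mul, ih, hv, eval_line', map_prod]
    simp only [eval_line']
    have h1 := h0 a
    field_simp

/-- the estimate -/
theorem no_sing {σ : K →+* ℂ} (hdir : D.Directions) (hN : 3 ≤ N) (w : Fin N → ℂ)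
    (h0 : ∀ a, w a ≠ 0) (hpr : ∏ a, ‖w a‖ ≤ 1)
    (hrel : ∀ p q a, D.det2 p q ≠ 0 → a ≠ p → a ≠ q →
      5 ≤ ‖w p * σ (D.det2 q a) + w q * σ (D.det2 a p) + w a * σ (D.det2 p q)‖)
    (hdet : ∀ q, ∑ a, σ (D.det2 q a) / w a = 0) : False := by
  classical
  -- the smallest value
  have hne : (Finset.univ : Finset (Fin N)).Nonempty := ⟨⟨0, by omega⟩, Finset.mem_univ _⟩
  obtain ⟨p, -, hp⟩ := Finset.exists_min_image Finset.univ (fun a => ‖w a‖) hne
  obtain ⟨q₀, hq₀⟩ := hdir.2 p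
  obtain ⟨q, hq', hq⟩ := Finset.exists_min_image
    (Finset.univ.filter fun a => D.det2 p a ≠ 0) (fun a => ‖w a‖)
    ⟨q₀, Finset.mem_filter.2 ⟨Finset.mem_univ _, hq₀⟩⟩
  have hd : D.det2 p q ≠ 0 := (Finset.mem_filter.1 hq').2
  have hpq : p ≠ q := ne_of_det2 hd
  have hp1 : ‖w p‖ ≤ 1 := by
    by_contra h
    push Not at h
    have h3 : ‖w p‖ ≤ ∏ a, ‖w a‖ := by
      rw [← Finset.mul_prod_erase _ _ (Finset.mem_univ p)]
      apply le_mul_of_one_le_right (norm_nonneg _)
      have h4 : ∏ a ∈ Finset.univ.erase p, (1 : ℝ) ≤ ∏ a ∈ Finset.univ.erase p, ‖w a‖ := by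
        apply Finset.prod_le_prod
        · intro a _
          exact zero_le_one
        · intro a _
          exact h.le.trans (hp a (Finset.mem_univ a))
      rwa [Finset.prod_const_one] at h4
    linarith
  have hother : ∀ a, a ≠ p → a ≠ q → 2 ≤ ‖w a‖ := by
    intro a hap haq
    have h2 := hrel p q a hd hap haq
    have h3 : ‖w p * σ (D.det2 q a)‖ ≤ 1 := by
      rw [norm_mul]
      calc _ ≤ 1 * 1 := mul_le_mul hp1 (norm_det2_le hdir σ _ _) (norm_nonneg _) zero_le_one
        _ = 1 := one_mul 1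
    have h4 : ‖w q * σ (D.det2 a p)‖ ≤ ‖w a‖ := by
      by_cases h : D.det2 a p = 0
      · rw [h, map_zero, mul_zero, norm_zero]
        exact norm_nonneg _
      · rw [norm_mul, norm_det2 hdir σ h, mul_one]
        exact hq a (Finset.mem_filter.2 ⟨Finset.mem_univ _, det2_ne_symm h⟩)
    have h5 : ‖w a * σ (D.det2 p q)‖ = ‖w a‖ := by
      rw [norm_mul, norm_det2 hdir σ hd, mul_one]
    have h6 := norm_add₃_le (a := w p * σ (D.det2 q a)) (b := w q * σ (D.det2 a p))
      (c := w a * σ (D.det2 p q))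
    rw [h5] at h6
    linarith
  -- the bound for the inverse
  have hA : ((Finset.univ.erase p).erase q).card = N - 2 := by
    rw [Finset.card_erase_of_mem (Finset.mem_erase.2 ⟨hpq.symm, Finset.mem_univ q⟩),
      Finset.card_erase_of_mem (Finset.mem_univ p), Finset.card_univ, Fintype.card_fin]
    omega
  have hsplit : ∀ f : Fin N → ℂ, ∑ a, f a = f p + (f q + ∑ a ∈ (Finset.univ.erase p).erase q, f a) := by
    intro f
    rw [Finset.add_sum_erase _ _ (Finset.mem_erase.2 ⟨hpq.symm, Finset.mem_univ q⟩),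
      Finset.add_sum_erase _ _ (Finset.mem_univ p)]
  have hsum : ∀ r, ‖∑ a ∈ (Finset.univ.erase p).erase q, σ (D.det2 r a) / w a‖ ≤
      ((N - 2 : ℕ) : ℝ) * (1 / 2) := by
    intro r
    refine (norm_sum_le _ _).trans ?_
    rw [← hA, ← nsmul_eq_mul]
    apply Finset.sum_le_card_nsmul
    intro a ha
    rw [Finset.mem_erase, Finset.mem_erase] at ha
    have h2 := hother a ha.2.1 ha.1
    rw [norm_div]
    have h3 : 0 < ‖w a‖ := by linarith
    rw [div_le_iff₀ h3]
    have h4 := norm_det2_le hdir σ r a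
    linarith
  have hinv : ∀ r s, D.det2 r s ≠ 0 → (∀ f : Fin N → ℂ,
      ∑ a, f a = f r + (f s + ∑ a ∈ (Finset.univ.erase p).erase q, f a)) →
      1 / ‖w s‖ ≤ ((N - 2 : ℕ) : ℝ) * (1 / 2) := by
    intro r s hrs hspl
    have h2 := hdet r
    rw [hspl, det2_self, map_zero, zero_div, zero_add] at h2
    have h3 : σ (D.det2 r s) / w s =
        -∑ a ∈ (Finset.univ.erase p).erase q, σ (D.det2 r a) / w a :=
      eq_neg_of_add_eq_zero_left h2
    have h4 : ‖σ (D.det2 r s) / w s‖ = 1 / ‖w s‖ := by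
      rw [norm_div, norm_det2 hdir σ hrs]
    rw [← h4, h3, norm_neg]
    exact hsum r
  have hsplit' : ∀ f : Fin N → ℂ, ∑ a, f a = f q + (f p + ∑ a ∈ (Finset.univ.erase p).erase q, f a) := by
    intro f
    rw [hsplit f]
    ring
  have hq1 := hinv p q hd hsplit
  have hp2 := hinv q p (det2_ne_symm hd) hsplit'
  -- the product
  have hprod : 2 ^ (N - 2) ≤ ∏ a ∈ (Finset.univ.erase p).erase q, ‖w a‖ := by
    rw [← hA, ← Finset.prod_const]
    apply Finset.prod_le_prod
    · intro a _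
      norm_num
    · intro a ha
      rw [Finset.mem_erase, Finset.mem_erase] at ha
      exact hother a ha.2.1 ha.1
  have hall : ‖w p‖ * (‖w q‖ * ∏ a ∈ (Finset.univ.erase p).erase q, ‖w a‖) ≤ 1 := by
    rw [Finset.mul_prod_erase (Finset.univ.erase p) (fun a => ‖w a‖)
        (Finset.mem_erase.2 ⟨hpq.symm, Finset.mem_univ q⟩),
      Finset.mul_prod_erase Finset.univ (fun a => ‖w a‖) (Finset.mem_univ p)]
    exact hpr
  have hx : 0 < ‖w p‖ := norm_pos_iff.2 (h0 p)
  have hy : 0 < ‖w q‖ := norm_pos_iff.2 (h0 q)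
  have hfin : (2 : ℝ) ^ (N - 2) ≤ (1 / ‖w p‖) * (1 / ‖w q‖) := by
    have h5 : ‖w p‖ * (‖w q‖ * 2 ^ (N - 2)) ≤ 1 := by
      refine le_trans ?_ hall
      gcongr
    rw [div_mul_div_comm, one_mul, le_div_iff₀ (mul_pos hx hy)]
    linarith
  have hfin2 : (1 / ‖w p‖) * (1 / ‖w q‖) ≤
      (((N - 2 : ℕ) : ℝ) * (1 / 2)) * (((N - 2 : ℕ) : ℝ) * (1 / 2)) :=
    mul_le_mul hp2 hq1 (by positivity) (by positivity)
  have h6 := sq_lt (N - 2)
  nlinarith

theorem smooth {σ : K →+* ℂ} (hdir : D.Directions) (hsep : D.Separated σ) (hN : 3 ≤ N) :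
    D.Smooth σ := by
  classical
  obtain ⟨δ, hδ, hlδ, hsep⟩ := hsep
  intro z hz
  by_contra hcon
  push Not at hcon
  have h1 : σ D.lam * ∏ p, D.val σ z p = 1 := by
    unfold eqn at hz
    rw [map_sub, map_mul, map_prod, eval₂Hom_C, map_one, sub_eq_zero] at hz
    simp only [eval_line'] at hz
    exact hz
  have hP0 : ∏ p, D.val σ z p ≠ 0 := by
    intro h
    rw [h, mul_zero] at h1
    exact zero_ne_one h1
  have h0 : ∀ p, D.val σ z p ≠ 0 := fun p => Finset.prod_ne_zero_iff.1 hP0 p (Finset.mem_univ p)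
  have hl0 : σ D.lam ≠ 0 := by
    intro h
    rw [h, zero_mul] at h1
    exact zero_ne_one h1
  -- the two equations
  have key : ∀ (i : Fin 2) (v : Fin N → ℂ), (∀ p, eval₂Hom σ z (pderiv i (D.line p)) = v p) →
      ∑ p, v p / D.val σ z p = 0 := by
    intro i v hv
    have h2 := hcon i
    unfold eqn at h2
    rw [map_sub, pderiv_C_mul, pderiv_one, sub_zero, map_mul, eval₂Hom_C,
      eval_pderiv σ z i v hv h0] at h2
    rcases mul_eq_zero.1 h2 with h3 | h3
    · exact absurd h3 hl0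
    · exact (mul_eq_zero.1 h3).resolve_left hP0
  have ha : ∑ p, σ (D.al p) / D.val σ z p = 0 := by
    apply key 0
    intro p
    unfold line
    simp
  have hb : ∑ p, σ (D.be p) / D.val σ z p = 0 := by
    apply key 1
    intro p
    unfold line
    simp
  have hdet : ∀ q, ∑ a, σ (D.det2 q a) / D.val σ z a = 0 := by
    intro q
    have e : ∀ a, σ (D.det2 q a) / D.val σ z a = σ (D.al q) * (σ (D.be a) / D.val σ z a) -
        σ (D.be q) * (σ (D.al a) / D.val σ z a) := by
      intro a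
      unfold det2
      rw [map_sub, map_mul, map_mul]
      ring
    simp only [e]
    rw [Finset.sum_sub_distrib, ← Finset.mul_sum, ← Finset.mul_sum, ha, hb, mul_zero, mul_zero,
      sub_zero]
  have hδ0 : (δ : ℂ) ≠ 0 := by
    exact_mod_cast hδ.ne'
  refine no_sing (σ := σ) hdir hN (fun a => D.val σ z a / δ) (fun a => div_ne_zero (h0 a) hδ0) ?_ ?_ ?_
  · have h3 : ‖σ D.lam‖ * ∏ a, ‖D.val σ z a‖ = 1 := by
      rw [← norm_prod, ← norm_mul, h1, norm_one]
    have h4 : 0 ≤ ∏ a, ‖D.val σ z a‖ := Finset.prod_nonneg fun a _ => norm_nonneg _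
    simp only [norm_div, Complex.norm_real, Real.norm_eq_abs, abs_of_pos hδ]
    rw [Finset.prod_div_distrib, Finset.prod_const, Finset.card_univ, Fintype.card_fin,
      div_le_one (by positivity)]
    have h5 : 0 < ‖σ D.lam‖ := norm_pos_iff.2 hl0
    have h6 : ‖σ D.lam‖ * ∏ a, ‖D.val σ z a‖ ≤ ‖σ D.lam‖ * δ ^ N := by
      rw [h3]
      exact hlδ
    exact le_of_mul_le_mul_left h6 h5
  · intro p q a hd hap haq
    have h3 := hsep p q a hd hap haq
    rw [val_rel σ z p q a] at h3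
    have e : D.val σ z p / δ * σ (D.det2 q a) + D.val σ z q / δ * σ (D.det2 a p) +
        D.val σ z a / δ * σ (D.det2 p q) = (D.val σ z p * σ (D.det2 q a) +
        D.val σ z q * σ (D.det2 a p) + D.val σ z a * σ (D.det2 p q)) / δ := by
      ring
    rw [e, norm_div, Complex.norm_real, Real.norm_eq_abs, abs_of_pos hδ, le_div_iff₀ hδ]
    exact h3
  · intro q
    have e : ∀ a, σ (D.det2 q a) / (D.val σ z a / δ) = δ * (σ (D.det2 q a) / D.val σ z a) := by
      intro a
      have := h0 a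
      field_simp
    simp only [e]
    rw [← Finset.mul_sum, hdet, mul_zero]

end Dat

end Pool.Agent.W5h29.LA
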